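import Mathlib
import Pool.Agent.H410R2.ACIface

/-!
# AC9: final assembly (helper143)
-/

set_option autoImplicit false

open Finset Filter Topology

namespace Pool.Agent.H143R2.ACF

open Pool.Agent.H410R2.AC

/-- the real inequalities which hold for large `N` -/
lemma ev_log (c : ℝ) (hc : 0 < c) (e : ℝ) (he : 0 < e) :
    ∀ᶠ N : ℕ in atTop, Real.log N ≤ c * (N : ℝ) ^ e := by
  have h1 : ∀ᶠ x : ℝ in atTop, Real.log x ≤ c * x ^ e := by
    have := (isLittleO_log_rpow_atTop he).bound hc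
    filter_upwards [this, eventually_ge_atTop (1 : ℝ)] with x hx hx1
    simp only [Real.norm_eq_abs] at hx
    rw [abs_of_nonneg (by positivity : (0 : ℝ) ≤ x ^ e)] at hx
    exact (le_abs_self _).trans hx
  exact tendsto_natCast_atTop_atTop.eventually h1

lemma ev_const (c e : ℝ) (he : 0 < e) : ∀ᶠ N : ℕ in atTop, c ≤ (N : ℝ) ^ e :=
  ((tendsto_rpow_atTop he).comp tendsto_natCast_atTop_atTop).eventually (eventually_ge_atTop c)

lemma ev_log_ge (c : ℝ) : ∀ᶠ N : ℕ in atTop, c ≤ Real.log N :=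
  (Real.tendsto_log_atTop.comp tendsto_natCast_atTop_atTop).eventually (eventually_ge_atTop c)

lemma primorial_bound {N H : ℕ} (hN : 1 ≤ N) (hH : (H : ℝ) ≤ Real.log N / 100) :
    (primorial H : ℝ) ≤ (N : ℝ) ^ (1 / 50 : ℝ) := by
  have hN0 : (0 : ℝ) < N := by exact_mod_cast hN
  have h1 : (primorial H : ℝ) ≤ (4 : ℝ) ^ H := by exact_mod_cast primorial_le_four_pow H
  refine h1.trans ?_
  have h2 : (4 : ℝ) ^ H = Real.exp (H * Real.log 4) := by
    rw [mul_comm, Real.exp_mul, Real.exp_log (by norm_num), Real.rpow_natCast]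
  rw [h2, Real.rpow_def_of_pos hN0]
  apply Real.exp_le_exp.2
  have h3 : Real.log 4 ≤ 2 := by
    have h4 : (4 : ℝ) = 2 ^ 2 := by norm_num
    rw [h4, Real.log_pow]
    have := Real.log_two_lt_d9
    push_cast
    linarith
  have h5 : 0 ≤ Real.log 4 := Real.log_nonneg (by norm_num)
  have h6 : (0 : ℝ) ≤ H := Nat.cast_nonneg H
  nlinarith

lemma prime_dvd_primorial {p H : ℕ} (hp : p.Prime) (h : p ∣ primorial H) : p ≤ H := by
  unfold primorial at h
  rw [hp.prime.dvd_finsetProd_iff] at h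
  obtain ⟨q, hq, hpq⟩ := h
  rw [Finset.mem_filter, Finset.mem_range] at hq
  have := (Nat.prime_dvd_prime_iff_eq hp hq.2).1 hpq
  omega

lemma exists_E (A0 : Finset ℕ) (b Q X M z : ℕ) (hQ : 0 < Q) : ∃ E : Finset ℕ,
    E.card ≤ M + A0.card * (z + 1) ∧ ∀ m < X, m ∉ E → M ≤ b + Q * m ∧
      ∀ a ∈ A0, ∀ q ≤ z, b + Q * m ≠ q + a := by
  refine ⟨range M ∪ (range X).filter (fun m => b + Q * m ∈
    (A0 ×ˢ range (z + 1)).image (fun x => x.2 + x.1)), ?_, ?_⟩
  · refine (Finset.card_union_le _ _).trans ?_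
    rw [Finset.card_range]
    apply Nat.add_le_add_left
    have h3 : ((range X).filter fun m => b + Q * m ∈
        (A0 ×ˢ range (z + 1)).image (fun x => x.2 + x.1)).image
        (fun m => b + Q * m) ⊆ (A0 ×ˢ range (z + 1)).image (fun x => x.2 + x.1) := by
      intro y hy
      rw [Finset.mem_image] at hy
      obtain ⟨m, hm, rfl⟩ := hy
      exact (Finset.mem_filter.1 hm).2
    have h4 := Finset.card_le_card h3
    rw [Finset.card_image_of_injective] at h4
    · refine h4.trans (Finset.card_image_le.trans ?_)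
      rw [Finset.card_product, Finset.card_range]
    · intro m m' h
      simp only at h
      exact Nat.eq_of_mul_eq_mul_left hQ (by omega)
  · intro m hm hmE
    rw [Finset.mem_union, not_or, Finset.mem_range, Finset.mem_filter] at hmE
    obtain ⟨h1, h2⟩ := hmE
    refine ⟨by nlinarith, ?_⟩
    intro a ha q hq he
    apply h2
    refine ⟨Finset.mem_range.2 hm, ?_⟩
    rw [Finset.mem_image]
    exact ⟨(a, q), Finset.mem_product.2 ⟨ha, Finset.mem_range.2 (by omega)⟩, he.symm⟩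

theorem final_of (hNT : NT) (hCore : Core) : Final := by
  rintro ⟨A, ⟨M, hM⟩, ⟨C, N₁, hC⟩⟩
  obtain ⟨-, -, -, -, -, -, -, hb⟩ := hNT
  classical
  set C' : ℝ := max C 1 with hC'
  have hC'1 : 1 ≤ C' := le_max_right _ _
  obtain ⟨N₀, hN₀⟩ := hCore (2 * C') (by linarith)
  have hev : ∀ᶠ N : ℕ in atTop, (16 ≤ N ∧ N₀ ≤ N ∧ N₁ ≤ N) ∧ 200 ≤ Real.log N ∧
      Real.log N ≤ 1 / (8 * C') * (N : ℝ) ^ (1 / 20 : ℝ) ∧ 2 * (M : ℝ) ≤ (N : ℝ) ^ (1 / 4 : ℝ) ∧
      2 ≤ (N : ℝ) ^ (1 / 4 : ℝ) := by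
    filter_upwards [eventually_ge_atTop 16, eventually_ge_atTop N₀, eventually_ge_atTop N₁,
      ev_log_ge 200, ev_log (1 / (8 * C')) (by positivity) (1 / 20) (by norm_num),
      ev_const (2 * M) (1 / 4) (by norm_num), ev_const 2 (1 / 4) (by norm_num)]
      with N a1 a2 a3 a4 a5 a6 a7
    exact ⟨⟨a1, a2, a3⟩, a4, a5, a6, a7⟩
  obtain ⟨N, ⟨hN16, hNN₀, hNN₁⟩, hlog, hlog2, hMN, h2N⟩ := hev.exists
  have hN1 : (1 : ℝ) ≤ N := by exact_mod_cast (by omega : 1 ≤ N)
  have hN0 : (0 : ℝ) < N := by linarith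
  set H := ⌊Real.log N / 100⌋₊ with hH
  set z := ⌊(N : ℝ) ^ (1 / 10 : ℝ)⌋₊ with hz
  have hH2 : 2 ≤ H := by
    rw [hH, Nat.le_floor_iff (by linarith)]
    push_cast
    linarith
  have hHle : (H : ℝ) ≤ Real.log N / 100 := Nat.floor_le (by linarith)
  have hHz : H ≤ z := by
    apply Nat.floor_le_floor
    have e1 : (N : ℝ) ^ (1 / 20 : ℝ) ≤ (N : ℝ) ^ (1 / 10 : ℝ) :=
      Real.rpow_le_rpow_of_exponent_le hN1 (by norm_num)
    have e2 : 1 / (8 * C') ≤ 1 := by
      rw [div_le_one (by linarith)]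
      linarith
    have e3 : (0 : ℝ) ≤ (N : ℝ) ^ (1 / 20 : ℝ) := by positivity
    nlinarith
  -- the finite set
  set A0 : Finset ℕ := (range (N + 1)).filter (fun a => a ∈ A) with hA0
  have hA0card : (A0.card : ℝ) ≤ 2 * C' * Real.log N := by
    have h1 := hC N hNN₁
    have h2 : A0.card ≤ (A ∩ Set.Icc 1 N).ncard + 1 := by
      have h3 : A0 ⊆ insert 0 ((range (N + 1)).filter (fun a => a ∈ A ∧ 1 ≤ a)) := by
        intro a ha
        rw [hA0, Finset.mem_filter] at ha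
        rcases Nat.eq_zero_or_pos a with h | h
        · rw [h]
          exact Finset.mem_insert_self _ _
        · exact Finset.mem_insert_of_mem (Finset.mem_filter.2 ⟨ha.1, ha.2, h⟩)
      have h4 : (((range (N + 1)).filter (fun a => a ∈ A ∧ 1 ≤ a) : Finset ℕ) : Set ℕ) =
          A ∩ Set.Icc 1 N := by
        ext a
        simp only [Finset.coe_filter, Finset.mem_range, Set.mem_ofPred_eq, Set.mem_inter_iff,
          Set.mem_Icc]
        constructor
        · rintro ⟨b1, b2, b3⟩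
          exact ⟨b2, b3, by omega⟩
        · rintro ⟨b1, b2, b3⟩
          exact ⟨by omega, b1, b2⟩
      have h5 : ((range (N + 1)).filter (fun a => a ∈ A ∧ 1 ≤ a)).card = (A ∩ Set.Icc 1 N).ncard := by
        rw [← h4, Set.ncard_coe_finset]
      rw [← h5]
      exact (Finset.card_le_card h3).trans (Finset.card_insert_le _ _)
    have h3 : (A0.card : ℝ) ≤ ((A ∩ Set.Icc 1 N).ncard : ℝ) + 1 := by exact_mod_cast h2
    have h4 : C * Real.log N ≤ C' * Real.log N :=
      mul_le_mul_of_nonneg_right (le_max_left _ _) (by linarith)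
    nlinarith
  obtain ⟨b, hbQ, hbB⟩ := hb H A0 hH2
  set Q := primorial H with hQ
  have hQpos : 0 < Q := primorial_pos H
  set B := A0.filter (fun a : ℕ => IsCoprime ((b : ℤ) - (a : ℤ)) (Q : ℤ)) with hB
  set X := N / Q with hX
  -- the hypotheses of the core theorem
  have hQN : (Q : ℝ) ≤ (N : ℝ) ^ (1 / 50 : ℝ) := primorial_bound (by omega) hHle
  have hXN : (N : ℝ) ^ (1 / 2 : ℝ) ≤ X := by
    have hQ0 : (0 : ℝ) < Q := by exact_mod_cast hQpos
    have h1 : (N : ℝ) / Q < X + 1 := by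
      rw [div_lt_iff₀ hQ0]
      have h2 : N < (N / Q + 1) * Q := by
        have := Nat.lt_div_mul_add (a := N) hQpos
        nlinarith
      exact_mod_cast h2
    have h2 : (N : ℝ) ^ (3 / 4 : ℝ) ≤ N / Q := by
      rw [le_div_iff₀ hQ0]
      calc (N : ℝ) ^ (3 / 4 : ℝ) * Q ≤ (N : ℝ) ^ (3 / 4 : ℝ) * (N : ℝ) ^ (1 / 50 : ℝ) := by gcongr
        _ = (N : ℝ) ^ (3 / 4 + 1 / 50 : ℝ) := by rw [Real.rpow_add hN0]
        _ ≤ (N : ℝ) ^ (1 : ℝ) := Real.rpow_le_rpow_of_exponent_le hN1 (by norm_num)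
        _ = N := Real.rpow_one _
    have h3 : (N : ℝ) ^ (3 / 4 : ℝ) = (N : ℝ) ^ (1 / 2 : ℝ) * (N : ℝ) ^ (1 / 4 : ℝ) := by
      rw [← Real.rpow_add hN0]
      norm_num
    have h4 : 1 ≤ (N : ℝ) ^ (1 / 2 : ℝ) := Real.one_le_rpow hN1 (by norm_num)
    nlinarith
  obtain ⟨E, hE1, hE2⟩ := exists_E A0 b Q X M z hQpos
  have hEcard : (E.card : ℝ) ≤ (N : ℝ) ^ (1 / 4 : ℝ) := by
    have h4 : (E.card : ℝ) ≤ M + A0.card * (z + 1) := by exact_mod_cast hE1
    have hz1 : (z : ℝ) ≤ (N : ℝ) ^ (1 / 10 : ℝ) := Nat.floor_le (by positivity)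
    have h5 : (1 : ℝ) ≤ (N : ℝ) ^ (1 / 10 : ℝ) := Real.one_le_rpow hN1 (by norm_num)
    have h6 : (A0.card : ℝ) * (z + 1) ≤ 1 / 2 * (N : ℝ) ^ (1 / 4 : ℝ) := by
      calc (A0.card : ℝ) * (z + 1) ≤ (2 * C' * Real.log N) * (2 * (N : ℝ) ^ (1 / 10 : ℝ)) := by
            apply mul_le_mul hA0card (by linarith) (by positivity)
            have : 0 ≤ Real.log N := by linarith
            positivity
        _ ≤ (2 * C' * (1 / (8 * C') * (N : ℝ) ^ (1 / 20 : ℝ))) * (2 * (N : ℝ) ^ (1 / 10 : ℝ)) := by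
            gcongr
        _ = 1 / 2 * ((N : ℝ) ^ (1 / 20 : ℝ) * (N : ℝ) ^ (1 / 10 : ℝ)) := by
            field_simp
            ring
        _ = 1 / 2 * (N : ℝ) ^ (1 / 20 + 1 / 10 : ℝ) := by rw [Real.rpow_add hN0]
        _ ≤ 1 / 2 * (N : ℝ) ^ (1 / 4 : ℝ) := by
            apply mul_le_mul_of_nonneg_left _ (by norm_num)
            exact Real.rpow_le_rpow_of_exponent_le hN1 (by norm_num)
    linarith
  obtain ⟨m, hmX, hmE, hmB⟩ := hN₀ N hNN₀ H z hH hz B Q b X
    (by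
      intro a ha
      rw [hB, Finset.mem_filter, hA0, Finset.mem_filter, Finset.mem_range] at ha
      omega)
    (by
      refine hbB.trans ?_
      linarith)
    (by
      intro p hp hpQ
      unfold PP at hp
      rw [Finset.mem_filter] at hp
      have := prime_dvd_primorial hp.2.1 hpQ
      omega) hXN E hEcard
  -- the number which is not represented
  obtain ⟨hnM, hnq⟩ := hE2 m hmX hmE
  have hnN : b + Q * m ≤ N := by
    have h1 : Q * (m + 1) ≤ N := by
      calc Q * (m + 1) ≤ Q * (N / Q) := Nat.mul_le_mul_left _ hmX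
        _ ≤ N := Nat.mul_div_le N Q
    nlinarith
  obtain ⟨q, a, hq, ha, hqa⟩ := hM _ hnM
  have haN : a ∈ A0 := by
    rw [hA0, Finset.mem_filter, Finset.mem_range]
    exact ⟨by omega, ha⟩
  have hqz : z < q := by
    by_contra hcon
    exact hnq a haN q (by omega) hqa
  have hqQ : ¬ q ∣ Q := fun h => by
    have := prime_dvd_primorial hq h
    omega
  have hcop : IsCoprime ((b : ℤ) - (a : ℤ)) (Q : ℤ) := by
    have h1 : IsCoprime (q : ℤ) (Q : ℤ) := by
      rw [Nat.isCoprime_iff_coprime]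
      exact (Nat.Prime.coprime_iff_not_dvd hq).2 hqQ
    have h2 : (b : ℤ) - a = q + (Q : ℤ) * (-m) := by
      have : ((b + Q * m : ℕ) : ℤ) = ((q + a : ℕ) : ℤ) := by rw [hqa]
      push_cast at this
      linarith
    rw [h2]
    exact IsCoprime.add_mul_left_left h1 (-(m : ℤ))
  obtain ⟨p, hp, hpd⟩ := hmB a (Finset.mem_filter.2 ⟨haN, hcop⟩)
  unfold PP at hp
  rw [Finset.mem_filter, Finset.mem_range] at hp
  have h1 : (b : ℤ) + Q * m - a = q := by
    have : ((b + Q * m : ℕ) : ℤ) = ((q + a : ℕ) : ℤ) := by rw [hqa]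
    push_cast at this
    linarith
  rw [h1] at hpd
  have h2 : p ∣ q := by exact_mod_cast hpd
  have h3 := (Nat.prime_dvd_prime_iff_eq hp.2.1 hq).1 h2
  omega

end Pool.Agent.H143R2.ACF
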