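import Mathlib
import Pool.Agent.H410R2.ACIface

/-!
# AC3: from `LocalSum` and `Equi` to `Moment` (helper143)
-/

set_option autoImplicit false

open Finset

namespace Pool.Agent.H143R2.ACM

open Pool.Agent.H410R2.AC

lemma wt_nonneg {P R : Finset ℕ} (hP : ∀ p ∈ P, p.Prime) (hR : R ⊆ P) : 0 ≤ wt R := by
  unfold wt
  apply Finset.prod_nonneg
  intro p hp
  have h1 := (hP p (hR hp)).two_le
  have h2 : (2 : ℝ) ≤ p := by exact_mod_cast h1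
  apply div_nonneg zero_le_one
  linarith

lemma ZZ_expand {T : Type} [Fintype T] [DecidableEq T] (ρ : ℕ → ℕ → ℕ)
    (S : T → Finset (Finset ℕ)) (σ : T → Option ℕ) (m : ℕ) :
    ZZ ρ S σ m = ∑ R ∈ Fintype.piFinset S, (∏ τ, wt (R τ)) * ∏ τ, ∏ p ∈ R τ, psi ρ p (σ τ) m := by
  unfold ZZ FF
  rw [Finset.prod_univ_sum]
  apply Finset.sum_congr rfl
  intro R _
  rw [Finset.prod_mul_distrib]

lemma prod_sum_sq {T : Type} [Fintype T] [DecidableEq T] (S : T → Finset (Finset ℕ)) :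
    ∑ R ∈ Fintype.piFinset S, (∏ τ, wt (R τ)) * (∏ τ, ∏ p ∈ R τ, (p : ℝ)) ^ 2 =
      ∏ τ, ∑ R ∈ S τ, wt R * (∏ p ∈ R, (p : ℝ)) ^ 2 := by
  rw [Finset.prod_univ_sum]
  apply Finset.sum_congr rfl
  intro R _
  rw [Finset.prod_mul_distrib, Finset.prod_pow]

lemma main (hE : Equi) {T : Type} [Fintype T] [DecidableEq T] (P : Finset ℕ) (ρ : ℕ → ℕ → ℕ)
    (S S' : T → Finset (Finset ℕ)) (σ σ' : T → Option ℕ) (Y Y' : T → ℝ)
    (hP : ∀ p ∈ P, p.Prime) (hS : ∀ τ, ∀ R ∈ S τ, R ⊆ P) (hS' : ∀ τ, ∀ R ∈ S' τ, R ⊆ P)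
    (hY : ∀ τ, ∑ R ∈ S τ, wt R * (∏ p ∈ R, (p : ℝ)) ^ 2 ≤ Y τ)
    (hY' : ∀ τ, ∑ R ∈ S' τ, wt R * (∏ p ∈ R, (p : ℝ)) ^ 2 ≤ Y' τ) (X : ℕ) :
    |∑ m ∈ range X, ZZ ρ S σ m * ZZ ρ S' σ' m - X * LS ρ P S S' σ σ'| ≤
      2 * ((∏ τ, Y τ) * ∏ τ, Y' τ) := by
  have h1 : ∑ m ∈ range X, ZZ ρ S σ m * ZZ ρ S' σ' m =
      ∑ R ∈ Fintype.piFinset S, ∑ R' ∈ Fintype.piFinset S',
        (∏ τ, wt (R τ)) * (∏ τ, wt (R' τ)) * ∑ m ∈ range X,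
          (∏ τ, ∏ p ∈ R τ, psi ρ p (σ τ) m) * (∏ τ, ∏ p ∈ R' τ, psi ρ p (σ' τ) m) := by
    simp_rw [ZZ_expand, Finset.sum_mul_sum]
    rw [Finset.sum_comm]
    apply Finset.sum_congr rfl
    intro R _
    rw [Finset.sum_comm]
    apply Finset.sum_congr rfl
    intro R' _
    rw [Finset.mul_sum]
    apply Finset.sum_congr rfl
    intro m _
    ring
  have h2 : (X : ℝ) * LS ρ P S S' σ σ' = ∑ R ∈ Fintype.piFinset S, ∑ R' ∈ Fintype.piFinset S',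
      (∏ τ, wt (R τ)) * (∏ τ, wt (R' τ)) * (X * ∏ p ∈ P, Ep ρ σ σ' R R' p) := by
    unfold LS
    rw [Finset.mul_sum]
    apply Finset.sum_congr rfl
    intro R _
    rw [Finset.mul_sum]
    apply Finset.sum_congr rfl
    intro R' _
    ring
  rw [h1, h2, ← Finset.sum_sub_distrib]
  have hw : ∀ R ∈ Fintype.piFinset S, 0 ≤ ∏ τ, wt (R τ) := fun R hR =>
    Finset.prod_nonneg fun τ _ => wt_nonneg hP (hS τ _ (Fintype.mem_piFinset.1 hR τ))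
  have hw' : ∀ R ∈ Fintype.piFinset S', 0 ≤ ∏ τ, wt (R τ) := fun R hR =>
    Finset.prod_nonneg fun τ _ => wt_nonneg hP (hS' τ _ (Fintype.mem_piFinset.1 hR τ))
  have h3 : |∑ R ∈ Fintype.piFinset S, (∑ R' ∈ Fintype.piFinset S',
        (∏ τ, wt (R τ)) * (∏ τ, wt (R' τ)) * ∑ m ∈ range X,
          (∏ τ, ∏ p ∈ R τ, psi ρ p (σ τ) m) * (∏ τ, ∏ p ∈ R' τ, psi ρ p (σ' τ) m) -
      ∑ R' ∈ Fintype.piFinset S',
      (∏ τ, wt (R τ)) * (∏ τ, wt (R' τ)) * (X * ∏ p ∈ P, Ep ρ σ σ' R R' p))| ≤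
      ∑ R ∈ Fintype.piFinset S, ∑ R' ∈ Fintype.piFinset S',
        (∏ τ, wt (R τ)) * (∏ τ, wt (R' τ)) *
          (2 * ((∏ τ, ∏ p ∈ R τ, (p : ℝ)) * ∏ τ, ∏ p ∈ R' τ, (p : ℝ)) ^ 2) := by
    refine (Finset.abs_sum_le_sum_abs _ _).trans (Finset.sum_le_sum fun R hR => ?_)
    rw [← Finset.sum_sub_distrib]
    refine (Finset.abs_sum_le_sum_abs _ _).trans (Finset.sum_le_sum fun R' hR' => ?_)
    rw [← mul_sub, abs_mul, abs_of_nonneg (mul_nonneg (hw R hR) (hw' R' hR'))]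
    apply mul_le_mul_of_nonneg_left _ (mul_nonneg (hw R hR) (hw' R' hR'))
    exact hE T P ρ σ σ' R R' hP (fun τ => hS τ _ (Fintype.mem_piFinset.1 hR τ))
      (fun τ => hS' τ _ (Fintype.mem_piFinset.1 hR' τ)) X
  refine h3.trans ?_
  have h4 : ∑ R ∈ Fintype.piFinset S, ∑ R' ∈ Fintype.piFinset S',
        (∏ τ, wt (R τ)) * (∏ τ, wt (R' τ)) *
          (2 * ((∏ τ, ∏ p ∈ R τ, (p : ℝ)) * ∏ τ, ∏ p ∈ R' τ, (p : ℝ)) ^ 2) =
      2 * ((∏ τ, ∑ R ∈ S τ, wt R * (∏ p ∈ R, (p : ℝ)) ^ 2) *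
        ∏ τ, ∑ R ∈ S' τ, wt R * (∏ p ∈ R, (p : ℝ)) ^ 2) := by
    rw [← prod_sum_sq, ← prod_sum_sq, Finset.sum_mul_sum, Finset.mul_sum]
    apply Finset.sum_congr rfl
    intro R _
    rw [Finset.mul_sum]
    apply Finset.sum_congr rfl
    intro R' _
    ring
  rw [h4]
  apply mul_le_mul_of_nonneg_left _ (by norm_num)
  have h5 : ∀ τ, 0 ≤ ∑ R ∈ S τ, wt R * (∏ p ∈ R, (p : ℝ)) ^ 2 := fun τ =>
    Finset.sum_nonneg fun R hR => mul_nonneg (wt_nonneg hP (hS τ R hR)) (sq_nonneg _)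
  have h5' : ∀ τ, 0 ≤ ∑ R ∈ S' τ, wt R * (∏ p ∈ R, (p : ℝ)) ^ 2 := fun τ =>
    Finset.sum_nonneg fun R hR => mul_nonneg (wt_nonneg hP (hS' τ R hR)) (sq_nonneg _)
  apply mul_le_mul
  · exact Finset.prod_le_prod (fun τ _ => h5 τ) (fun τ _ => hY τ)
  · exact Finset.prod_le_prod (fun τ _ => h5' τ) (fun τ _ => hY' τ)
  · exact Finset.prod_nonneg fun τ _ => h5' τ
  · exact Finset.prod_nonneg fun τ _ => (h5 τ).trans (hY τ)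

/-- AC3 -/
theorem moment_of (hL : LocalSum) (hE : Equi) : Moment := by
  intro n
  obtain ⟨K, hK0, hK⟩ := hL n
  refine ⟨K, hK0, ?_⟩
  intro T _ _ hT P ρ S S' σ σ' Y Y' hP hStd hStd' hY hY' X
  have h1 := main hE P ρ S S' σ σ' Y Y' hP hStd.2.2.1 hStd'.2.2.1 hY hY' X
  obtain ⟨h2, h3⟩ := hK T hT P ρ S S' σ σ' hP hStd hStd'
  have hX : (0 : ℝ) ≤ X := Nat.cast_nonneg X
  constructor
  · intro hD
    have h4 := mul_le_mul_of_nonneg_left (h2 hD) hX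
    have h5 : ∑ m ∈ range X, ZZ ρ S σ m * ZZ ρ S' σ' m =
        X * LS ρ P S S' σ σ' + (∑ m ∈ range X, ZZ ρ S σ m * ZZ ρ S' σ' m -
          X * LS ρ P S S' σ σ') := by ring
    rw [h5]
    refine (abs_add_le _ _).trans (add_le_add ?_ h1)
    rw [abs_mul, abs_of_nonneg hX]
    exact h4
  · intro e1 e2
    have h4 := mul_le_mul_of_nonneg_left (h3 e1 e2) hX
    have h5 : ∑ m ∈ range X, ZZ ρ S σ m * ZZ ρ S' σ' m - X * ∏ τ, GG (S τ) =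
        X * (LS ρ P S S' σ σ' - ∏ τ, GG (S τ)) + (∑ m ∈ range X, ZZ ρ S σ m * ZZ ρ S' σ' m -
          X * LS ρ P S S' σ σ') := by ring
    rw [h5]
    refine (abs_add_le _ _).trans (add_le_add ?_ h1)
    rw [abs_mul, abs_of_nonneg hX]
    exact h4

end Pool.Agent.H143R2.ACM
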