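import Mathlib
import Pool.Agent.H788R2.Cheb.Defs
import Pool.Agent.Helper114.MontelSol

/-!
# Task F (helper143): the final step for S04067
-/

set_option autoImplicit false

open Set Filter Topology Metric

namespace Pool.Agent.H788R2.Cheb

open Pool.Agent.Helper114.Konig (An)

/-- inverse of an injective holomorphic function -/
theorem inverse_diff {h : ℂ → ℂ} {U : Set ℂ} (hU : IsOpen U) (hd : DifferentiableOn ℂ h U)
    (hi : InjOn h U) : IsOpen (h '' U) ∧ ∃ g : ℂ → ℂ, DifferentiableOn ℂ g (h '' U) ∧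
      (∀ z ∈ U, g (h z) = z) ∧ ∀ z ∈ U, deriv h z ≠ 0 := by
  have hne : ∀ z ∈ U, deriv h z ≠ 0 := fun z hz =>
    Pool.Agent.Helper114.Montel.deriv_ne_zero_of_injOn hU h hd hi hz
  have hmap : ∀ z ∈ U, map h (𝓝 z) = 𝓝 (h z) := by
    intro z hz
    have h1 : HasStrictDerivAt h (deriv h z) z := (hd.analyticOnNhd hU z hz).hasStrictDerivAt
    exact h1.map_nhds_eq (hne z hz)
  have hopen : ∀ V ⊆ U, IsOpen V → IsOpen (h '' V) := by
    intro V hVU hV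
    rw [isOpen_iff_mem_nhds]
    rintro _ ⟨z, hz, rfl⟩
    rw [← hmap z (hVU hz)]
    exact image_mem_map (hV.mem_nhds hz)
  refine ⟨hopen U Subset.rfl hU, Function.invFunOn h U, ?_, ?_, hne⟩
  · have hinv : ∀ z ∈ U, Function.invFunOn h U (h z) = z := fun z hz => hi.leftInvOn_invFunOn hz
    rintro _ ⟨z, hz, rfl⟩
    have hc : ContinuousAt (Function.invFunOn h U) (h z) := by
      rw [ContinuousAt, hinv z hz]
      intro V hV
      obtain ⟨V', hV'1, hV'2, hV'3⟩ := _root_.mem_nhds_iff.1 (inter_mem hV (hU.mem_nhds hz))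
      have h1 : h '' V' ∈ 𝓝 (h z) :=
        (hopen V' (fun x hx => (hV'1 hx).2) hV'2).mem_nhds ⟨z, hV'3, rfl⟩
      rw [Filter.mem_map]
      filter_upwards [h1] with y hy
      obtain ⟨x, hx, rfl⟩ := hy
      rw [Set.mem_preimage, hinv x (hV'1 hx).2]
      exact (hV'1 hx).1
    have hd1 : HasDerivAt h (deriv h z) (Function.invFunOn h U (h z)) := by
      rw [hinv z hz]
      exact (hd.differentiableAt (hU.mem_nhds hz)).hasDerivAt
    have h2 : ∀ᶠ y in 𝓝 (h z), h (Function.invFunOn h U y) = y := by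
      filter_upwards [(hopen U Subset.rfl hU).mem_nhds ⟨z, hz, rfl⟩] with y hy
      exact Function.invFunOn_eq hy
    exact (HasDerivAt.of_local_left_inverse hc hd1 (hne z hz) h2).differentiableAt.differentiableWithinAt
  · exact fun z hz => hi.leftInvOn_invFunOn hz

namespace FF

theorem cc_norm : ‖cc‖ = √3 := by
  unfold cc
  rw [norm_neg, norm_mul, Complex.norm_I, one_mul, Complex.norm_real, Real.norm_eq_abs,
    abs_of_nonneg (Real.sqrt_nonneg 3)]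

theorem sqrt3_bounds : (17 / 10 : ℝ) < √3 ∧ √3 < 1733 / 1000 := by
  constructor
  · rw [Real.lt_sqrt (by norm_num)]
    norm_num
  · rw [Real.sqrt_lt' (by norm_num)]
    norm_num

theorem cc_ne' : cc ≠ 0 := by
  rw [← norm_pos_iff, cc_norm]
  linarith [sqrt3_bounds.1]

theorem cc_mul_re (v : ℂ) : (cc * v).re = √3 * v.im := by
  simp [cc]

theorem cc_mul_im (v : ℂ) : (cc * v).im = -(√3 * v.re) := by
  simp [cc]

theorem Ef_re (w : ℂ) : (Ef w).re = w.re * (23 / 20 / Complex.normSq w + 3 / 5) := by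
  unfold Ef
  rw [Complex.add_re, Complex.div_re, Complex.mul_re]
  norm_num
  ring

theorem Ef_im (w : ℂ) : (Ef w).im = w.im * (3 / 5 - 23 / 20 / Complex.normSq w) := by
  unfold Ef
  rw [Complex.add_im, Complex.div_im, Complex.mul_im]
  norm_num
  ring

theorem Ef_inj {w w' : ℂ} (hw : w ≠ 0) (hw' : w' ≠ 0) (h1 : ‖w‖ < 13 / 10) (h2 : ‖w'‖ < 13 / 10)
    (h : Ef w = Ef w') : w = w' := by
  by_contra hne
  have h3 : (w - w') * (3 / 5 * (w * w') - 23 / 20) = 0 := by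
    unfold Ef at h
    field_simp at h
    linear_combination (1 / 100) * h
  have h4 : 3 / 5 * (w * w') - 23 / 20 = 0 := by
    rcases mul_eq_zero.1 h3 with h5 | h5
    · exact absurd (sub_eq_zero.1 h5) hne
    · exact h5
  have h5 : w * w' = 23 / 12 := by linear_combination (5 / 3) * h4
  have h6 : ‖w‖ * ‖w'‖ = 23 / 12 := by
    rw [← norm_mul, h5]
    norm_num
  nlinarith [norm_nonneg w, norm_nonneg w']

theorem Xf_diff : Differentiable ℂ Xf := by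
  unfold Xf
  simp only [div_eq_mul_inv]
  fun_prop

theorem Ef_diffAt {w : ℂ} (hw : w ≠ 0) : DifferentiableAt ℂ Ef w := by
  unfold Ef
  fun_prop (disch := assumption)

/-- the ellipse form -/
noncomputable def Q (v : ℂ) : ℝ := (v.re / (7 / 4)) ^ 2 + (v.im / (11 / 20)) ^ 2

theorem Q_cont : Continuous Q := by
  unfold Q
  fun_prop

theorem Q_rc {v : ℂ} (h : Q v ≤ 1) : cc * v ∈ Rc := by
  unfold Q at h
  have h1 : |v.re| ≤ 7 / 4 := by
    rw [← sq_le_sq₀ (abs_nonneg _) (by norm_num), sq_abs]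
    have := sq_nonneg (v.im / (11 / 20))
    have h2 : (v.re / (7 / 4)) ^ 2 ≤ 1 := by linarith
    rw [div_pow, div_le_one (by norm_num)] at h2
    exact h2
  have h2 : |v.im| ≤ 11 / 20 := by
    rw [← sq_le_sq₀ (abs_nonneg _) (by norm_num), sq_abs]
    have := sq_nonneg (v.re / (7 / 4))
    have h2 : (v.im / (11 / 20)) ^ 2 ≤ 1 := by linarith
    rw [div_pow, div_le_one (by norm_num)] at h2
    exact h2
  obtain ⟨s1, s2⟩ := sqrt3_bounds
  refine ⟨?_, ?_⟩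
  · rw [cc_mul_re, abs_mul, abs_of_pos (by linarith : (0 : ℝ) < √3)]
    nlinarith [abs_nonneg v.im]
  · rw [cc_mul_im, abs_neg, abs_mul, abs_of_pos (by linarith : (0 : ℝ) < √3)]
    nlinarith [abs_nonneg v.re]

theorem Rc_sq {t : ℂ} (h : t ∈ Rc) : t ∈ Sq := ⟨by linarith [h.1], by linarith [h.2]⟩

theorem Ro_sq {t : ℂ} (h : t ∈ Ro) : t ∈ Sq := ⟨by linarith [h.1], by linarith [h.2]⟩

theorem exp_small {s : ℝ} (hs : 0 < s) (hs1 : s ≤ 1 / 400) :
    1 - s < Real.exp (-s) ∧ Real.exp s < 1 + 2 * s ∧ 1 + s < Real.exp s ∧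
      Real.exp (-s) < 1 - s / 2 := by
  have h1 : 1 - s < Real.exp (-s) := by
    have := Real.add_one_lt_exp (show -s ≠ 0 by linarith)
    linarith
  have h2 : 1 + s < Real.exp s := by
    have := Real.add_one_lt_exp (show s ≠ 0 by linarith)
    linarith
  have h3 : Real.exp s * Real.exp (-s) = 1 := by
    rw [← Real.exp_add]
    simp
  have h4 := Real.exp_pos s
  have h5 := Real.exp_pos (-s)
  refine ⟨h1, ?_, h2, ?_⟩
  · by_contra hcon
    push Not at hcon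
    nlinarith
  · by_contra hcon
    push Not at hcon
    nlinarith

section main

variable {s : ℝ} (hs : 0 < s) (hs1 : s ≤ 1 / 400) {ϕ : ℂ → ℂ}
  (hd : DifferentiableOn ℂ ϕ (An s)) (hi : InjOn ϕ (An s)) (hc : ∀ ζ ∈ An s, ‖ϕ ζ - ζ‖ ≤ s / 10)

include hs hs1 hc in
theorem phi_norm {ζ : ℂ} (h : ζ ∈ An s) : 99 / 100 ≤ ‖ϕ ζ‖ ∧ ‖ϕ ζ‖ ≤ 101 / 100 := by
  obtain ⟨e1, e2, e3, e4⟩ := exp_small hs hs1
  obtain ⟨h1, h2⟩ := h
  have h3 := hc ζ ⟨h1, h2⟩
  have h4 : ‖ϕ ζ‖ ≤ ‖ϕ ζ - ζ‖ + ‖ζ‖ := by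
    have := norm_add_le (ϕ ζ - ζ) ζ
    rwa [sub_add_cancel] at this
  have h5 : ‖ζ‖ ≤ ‖ϕ ζ - ζ‖ + ‖ϕ ζ‖ := by
    have := norm_sub_le (ϕ ζ) (ϕ ζ - ζ)
    rw [sub_sub_cancel] at this
    linarith
  constructor <;> linarith

include hs hs1 hc hd hi in
/-- `ϕ` is onto the unit circle -/
theorem phi_onto {w : ℂ} (hw : ‖w‖ = 1) : ∃ ζ ∈ An s, ϕ ζ = w := by
  obtain ⟨e1, e2, e3, e4⟩ := exp_small hs hs1
  have hr : 0 < s / 2 := by linarith
  have hsub : closedBall w (s / 2) ⊆ An s := by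
    intro ζ hζ
    rw [mem_closedBall, dist_eq_norm] at hζ
    have h4 : ‖ζ‖ ≤ ‖ζ - w‖ + ‖w‖ := by
      have := norm_add_le (ζ - w) w
      rwa [sub_add_cancel] at this
    have h5 : ‖w‖ ≤ ‖ζ - w‖ + ‖ζ‖ := by
      have := norm_sub_le ζ (ζ - w)
      rw [sub_sub_cancel] at this
      linarith
    constructor <;> linarith
  have hwA : w ∈ An s := hsub (mem_closedBall_self hr.le)
  have hdc : DiffContOnCl ℂ ϕ (ball w (s / 2)) := by
    apply DifferentiableOn.diffContOnCl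
    rw [closure_ball w hr.ne']
    exact hd.mono hsub
  have h1 : ∀ z ∈ sphere w (s / 2), 3 * s / 10 ≤ ‖ϕ z - ϕ w‖ := by
    intro z hz
    have hzA : z ∈ An s := hsub (sphere_subset_closedBall hz)
    rw [mem_sphere, dist_eq_norm] at hz
    have h2 := hc z hzA
    have h3 := hc w hwA
    have h4 : ‖z - w‖ ≤ ‖ϕ z - ϕ w‖ + ‖ϕ z - z‖ + ‖ϕ w - w‖ := by
      have e : z - w = (ϕ z - ϕ w) - (ϕ z - z) + (ϕ w - w) := by ring
      calc ‖z - w‖ = ‖(ϕ z - ϕ w) - (ϕ z - z) + (ϕ w - w)‖ := by rw [← e]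
        _ ≤ ‖(ϕ z - ϕ w) - (ϕ z - z)‖ + ‖ϕ w - w‖ := norm_add_le _ _
        _ ≤ _ := by
            have := norm_sub_le (ϕ z - ϕ w) (ϕ z - z)
            linarith
    linarith
  have hfr : ∃ᶠ z in 𝓝 w, ϕ z ≠ ϕ w := by
    rw [Filter.Frequently]
    intro hcon
    have hcon' : ∀ᶠ z in 𝓝 w, z = w := by
      filter_upwards [hcon, closedBall_mem_nhds w hr] with z hz hz'
      exact hi (hsub hz') hwA (not_not.1 hz)
    have h2 : ∀ᶠ z in 𝓝[≠] w, z = w := hcon'.filter_mono nhdsWithin_le_nhds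
    have h3 : ∀ᶠ z in 𝓝[≠] w, z ≠ w := eventually_mem_nhdsWithin
    obtain ⟨z, hz1, hz2⟩ := (h2.and h3).exists
    exact hz2 hz1
  have h2 := hdc.ball_subset_image_closedBall hr h1 hfr
  have h3 : w ∈ ball (ϕ w) (3 * s / 10 / 2) := by
    rw [mem_ball, dist_comm, dist_eq_norm]
    have := hc w hwA
    linarith
  obtain ⟨ζ, hζ, hζw⟩ := h2 h3
  exact ⟨ζ, hsub hζ, hζw⟩

end main

/-- the map from the ellipse plane -/
noncomputable def GG (e : ℝ) (v : ℂ) : ℂ := (e : ℂ) * Xf (cc * v)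

theorem GG_diff (e : ℝ) : Differentiable ℂ (GG e) := by
  unfold GG
  exact (Xf_diff.comp (differentiable_id.const_mul cc)).const_mul _

theorem GG_inj {e : ℝ} (he : 0 < e) (hX : InjOn Xf Sq) {v v' : ℂ} (hv : cc * v ∈ Sq)
    (hv' : cc * v' ∈ Sq) (h : GG e v = GG e v') : v = v' := by
  unfold GG at h
  have he' : (e : ℂ) ≠ 0 := by exact_mod_cast he.ne'
  exact mul_left_cancel₀ cc_ne' (hX hv hv' (mul_left_cancel₀ he' h))

end FF

open FF in
/-- Task F: from the invariant ring to the frozen statement -/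
theorem final_of_ring_of (hX : InjOn Xf Sq)
    (hE : ∀ w : ℂ, 99 / 100 ≤ ‖w‖ → ‖w‖ ≤ 101 / 100 → cc * Ef w ∈ Ro)
    (hN : ∀ t ∈ Rc, ‖Xf t‖ ≤ 20)
    (f : Polynomial ℂ) (e : ℝ) (he : 0 < e) (he1 : e ≤ 1) (s : ℝ)
    (hs : 0 < s) (hs1 : s ≤ 1 / 400) (ϕ : ℂ → ℂ) (hd : DifferentiableOn ℂ ϕ (An s))
    (hi : InjOn ϕ (An s)) (hc : ∀ ζ ∈ An s, ‖ϕ ζ - ζ‖ ≤ s / 10)
    (hrot : ∀ ζ ∈ An s, (Gf f)^[4] ((e : ℂ) * Xf (cc * Ef (ϕ ζ))) =
      (e : ℂ) * Xf (cc * Ef (ϕ (Complex.exp (2 * (Real.pi : ℂ) * ((√2 : ℝ) : ℂ) * Complex.I) * ζ))))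
    (t₁ : ℂ) (ht₁ : ‖t₁ - cc / 2‖ ≤ 1 / 10)
    (h₁ : Gf f ((e : ℂ) * Xf t₁) = (e : ℂ) * Xf t₁)
    (h₁' : 1 < ‖deriv (Gf f) ((e : ℂ) * Xf t₁)‖)
    (z₂ : ℂ) (hz₂ : 100 < ‖z₂‖) (h₂ : Gf f z₂ = z₂) (h₂' : 1 < ‖deriv (Gf f) z₂‖) :
    ∃ f : Polynomial ℂ, ∃ g : ℂ → ℂ,
    (∀ z : ℂ, g z = z - (1 + (1/2 : ℂ) * (f.eval z * (Polynomial.derivative (Polynomial.derivative f)).eval z / ((Polynomial.derivative f).eval z) ^ 2)) * (f.eval z / (Polynomial.derivative f).eval z)) ∧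
    ∃ U : Set ℂ, ∃ φ : ℂ → ℂ, ∃ R : ℝ, ∃ θ : ℝ, ∃ p : ℕ,
      0 < p ∧ 1 < R ∧ Irrational θ ∧ IsOpen U ∧
      DifferentiableOn ℂ φ U ∧ Set.InjOn φ U ∧
      φ '' U = {w : ℂ | 1 < ‖w‖ ∧ ‖w‖ < R} ∧
      (∀ z ∈ U, g^[p] z ∈ U ∧ φ (g^[p] z) = Complex.exp (2 * (Real.pi : ℂ) * Complex.I * (θ : ℂ)) * φ z) ∧
      ∃ z₁ z₂ : ℂ, ∃ n₁ n₂ : ℕ, 0 < n₁ ∧ 0 < n₂ ∧
        g^[n₁] z₁ = z₁ ∧ 1 < ‖deriv (g^[n₁]) z₁‖ ∧
        g^[n₂] z₂ = z₂ ∧ 1 < ‖deriv (g^[n₂]) z₂‖ ∧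
        z₁ ∉ U ∧ z₂ ∉ U ∧
        OnePoint.some z₂ ∉ connectedComponentIn ((OnePoint.some '' U)ᶜ) (OnePoint.some z₁) := by
  -- basic facts
  have hpn := fun ζ (hζ : ζ ∈ An s) => phi_norm hs hs1 hc hζ
  have hp0 : ∀ ζ ∈ An s, ϕ ζ ≠ 0 := by
    intro ζ hζ h0
    have := (hpn ζ hζ).1
    rw [h0, norm_zero] at this
    linarith
  have hER : ∀ ζ ∈ An s, cc * Ef (ϕ ζ) ∈ Ro := fun ζ hζ => hE _ (hpn ζ hζ).1 (hpn ζ hζ).2
  let Θ : ℂ → ℂ := fun ζ => GG e (Ef (ϕ ζ))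
  have hΘd : DifferentiableOn ℂ Θ (An s) := by
    intro ζ hζ
    have h1 : DifferentiableAt ℂ Ef (ϕ ζ) := Ef_diffAt (hp0 ζ hζ)
    exact (GG_diff e _).comp_differentiableWithinAt ζ (h1.comp_differentiableWithinAt ζ (hd ζ hζ))
  have hΘi : InjOn Θ (An s) := by
    intro ζ hζ ζ' hζ' h
    have h1 := GG_inj he hX (Ro_sq (hER ζ hζ)) (Ro_sq (hER ζ' hζ')) h
    exact hi hζ hζ' (Ef_inj (hp0 ζ hζ) (hp0 ζ' hζ') (by linarith [(hpn ζ hζ).2])
      (by linarith [(hpn ζ' hζ').2]) h1)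
  have hAo : IsOpen (An s) := Pool.Agent.Helper114.Konig.isOpen_An s
  obtain ⟨hUo, Ti, hTd, hTi, -⟩ := inverse_diff hAo hΘd hΘi
  set U : Set ℂ := Θ '' An s with hU
  set φ : ℂ → ℂ := fun z => ((Real.exp s : ℝ) : ℂ) * Ti z with hφ
  have hφΘ : ∀ ζ ∈ An s, φ (Θ ζ) = ((Real.exp s : ℝ) : ℂ) * ζ := by
    intro ζ hζ
    simp only [hφ, hTi ζ hζ]
  have hes := Real.exp_pos s
  have hes' : ((Real.exp s : ℝ) : ℂ) ≠ 0 := by exact_mod_cast hes.ne'
  have hee : Real.exp s * Real.exp (-s) = 1 := by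
    rw [← Real.exp_add]
    simp
  have hnorm : ∀ ζ : ℂ, ‖((Real.exp s : ℝ) : ℂ) * ζ‖ = Real.exp s * ‖ζ‖ := by
    intro ζ
    rw [norm_mul, Complex.norm_real, Real.norm_eq_abs, abs_of_pos hes]
  set μ : ℂ := Complex.exp (2 * (Real.pi : ℂ) * ((√2 : ℝ) : ℂ) * Complex.I) with hμ
  have hμ1 : ‖μ‖ = 1 := by
    have h1 : 2 * (Real.pi : ℂ) * ((√2 : ℝ) : ℂ) * Complex.I =
        ((2 * Real.pi * √2 : ℝ) : ℂ) * Complex.I := by push_cast; ring
    rw [hμ, h1, Complex.norm_exp_ofReal_mul_I]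
  -- the ellipse
  have hv₁ : ‖t₁ / cc - 1 / 2‖ ≤ 1 / 10 := by
    have h1 : t₁ / cc - 1 / 2 = (t₁ - cc / 2) / cc := by
      field_simp [cc_ne']
    rw [h1, norm_div, cc_norm, div_le_iff₀ (by linarith [sqrt3_bounds.1])]
    linarith [sqrt3_bounds.1]
  set v₁ := t₁ / cc with hv₁d
  have hv₁re : |v₁.re - 1 / 2| ≤ 1 / 10 := by
    have := (Complex.abs_re_le_norm (v₁ - 1 / 2)).trans hv₁
    simpa using this
  have hv₁im : |v₁.im| ≤ 1 / 10 := by
    have := (Complex.abs_im_le_norm (v₁ - 1 / 2)).trans hv₁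
    simpa using this
  have hQ₁ : Q v₁ < 1 := by
    unfold Q
    rw [abs_le] at hv₁re hv₁im
    have h1 : v₁.re ^ 2 ≤ (6 / 10) ^ 2 := by nlinarith
    have h2 : v₁.im ^ 2 ≤ (1 / 10) ^ 2 := by nlinarith
    rw [div_pow, div_pow]
    norm_num
    linarith
  have hz₁ : (e : ℂ) * Xf t₁ = GG e v₁ := by
    unfold GG
    rw [hv₁d, mul_div_cancel₀ _ cc_ne']
  have hz₁U : (e : ℂ) * Xf t₁ ∉ U := by
    rw [hz₁, hU]
    rintro ⟨ζ, hζ, h⟩
    have h1 : Ef (ϕ ζ) = v₁ := GG_inj he hX (Ro_sq (hER ζ hζ)) (Rc_sq (Q_rc hQ₁.le)) h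
    have h2 := hpn ζ hζ
    set w := ϕ ζ with hw
    have h3 := Ef_re w
    have h4 := Ef_im w
    rw [h1] at h3 h4
    have h5 : Complex.normSq w = w.re ^ 2 + w.im ^ 2 := by
      rw [Complex.normSq_apply]
      ring
    have h6 : Complex.normSq w = ‖w‖ ^ 2 := Complex.normSq_eq_norm_sq w
    set q := Complex.normSq w with hq
    have hq1 : 98 / 100 ≤ q := by
      rw [h6]
      nlinarith
    have hq2 : q ≤ 103 / 100 := by
      rw [h6]
      nlinarith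
    have hq3 : 11 / 10 ≤ 23 / 20 / q := by
      rw [le_div_iff₀ (by linarith)]
      linarith
    rw [abs_le] at hv₁re hv₁im
    have a1 : |w.re| ≤ 1 / 2 := by
      by_contra hcon
      push Not at hcon
      have : |v₁.re| = |w.re| * (23 / 20 / q + 3 / 5) := by
        rw [h3, abs_mul, abs_of_pos (by linarith : (0 : ℝ) < 23 / 20 / q + 3 / 5)]
      have h7 : |v₁.re| ≤ 6 / 10 := abs_le.2 ⟨by linarith, by linarith⟩
      nlinarith
    have a2 : |w.im| ≤ 1 / 2 := by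
      by_contra hcon
      push Not at hcon
      have : |v₁.im| = |w.im| * (23 / 20 / q - 3 / 5) := by
        rw [h4, abs_mul, abs_sub_comm, abs_of_pos (by linarith : (0 : ℝ) < 23 / 20 / q - 3 / 5)]
      have h7 : |v₁.im| ≤ 1 / 10 := abs_le.2 ⟨by linarith, by linarith⟩
      nlinarith
    rw [abs_le] at a1 a2
    nlinarith
  have hbig : ∀ v : ℂ, cc * v ∈ Rc → ‖GG e v‖ ≤ 20 := by
    intro v hv
    unfold GG
    rw [norm_mul, Complex.norm_real, Real.norm_eq_abs, abs_of_pos he]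
    have := hN _ hv
    nlinarith [norm_nonneg (Xf (cc * v))]
  have hz₂U : z₂ ∉ U := by
    rw [hU]
    rintro ⟨ζ, hζ, h⟩
    have h1 := hER ζ hζ
    have h2 : ‖Θ ζ‖ ≤ 20 := hbig _ ⟨h1.1.le, h1.2.le⟩
    rw [h] at h2
    linarith
  -- separation
  have hG : ∀ v : ℂ, Q v = 1 → GG e v ∈ U := by
    intro v hv
    let w : ℂ := ⟨v.re / (7 / 4), -(v.im / (11 / 20))⟩
    have hwq : Complex.normSq w = 1 := by
      rw [Complex.normSq_apply]
      show v.re / (7 / 4) * (v.re / (7 / 4)) + -(v.im / (11 / 20)) * -(v.im / (11 / 20)) = 1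
      unfold Q at hv
      rw [← hv]
      ring
    have hw1 : ‖w‖ = 1 := by
      have h1 := Complex.normSq_eq_norm_sq w
      rw [hwq] at h1
      have h2 := norm_nonneg w
      nlinarith
    have hEw : Ef w = v := by
      apply Complex.ext
      · rw [Ef_re, hwq]
        show v.re / (7 / 4) * (23 / 20 / 1 + 3 / 5) = v.re
        ring
      · rw [Ef_im, hwq]
        show -(v.im / (11 / 20)) * (3 / 5 - 23 / 20 / 1) = v.im
        ring
    obtain ⟨ζ, hζ, hζw⟩ := phi_onto hs hs1 hd hi hc hw1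
    refine ⟨ζ, hζ, ?_⟩
    show GG e (Ef (ϕ ζ)) = GG e v
    rw [hζw, hEw]
  have hInj : InjOn (GG e) {v | Q v < 1} := fun v hv v' hv' h =>
    GG_inj he hX (Rc_sq (Q_rc (le_of_lt hv))) (Rc_sq (Q_rc (le_of_lt hv'))) h
  have hVo : IsOpen (GG e '' {v | Q v < 1}) :=
    (inverse_diff (isOpen_lt Q_cont continuous_const) (GG_diff e).differentiableOn hInj).1
  have hKc : IsCompact {v : ℂ | Q v ≤ 1} := by
    apply Metric.isCompact_of_isClosed_isBounded (isClosed_le Q_cont continuous_const)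
    rw [isBounded_iff_forall_norm_le]
    refine ⟨3, fun v hv => ?_⟩
    have h1 : Q v ≤ 1 := hv
    unfold Q at h1
    rw [div_pow, div_pow] at h1
    have h2 := Complex.normSq_eq_norm_sq v
    rw [Complex.normSq_apply] at h2
    have h3 := norm_nonneg v
    norm_num at h1
    nlinarith [sq_nonneg v.re, sq_nonneg v.im]
  have hVc : IsCompact (GG e '' {v | Q v ≤ 1}) := hKc.image (GG_diff e).continuous
  have hsep : OnePoint.some z₂ ∉ connectedComponentIn ((OnePoint.some '' U)ᶜ)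
      (OnePoint.some ((e : ℂ) * Xf t₁)) := by
    set A : Set (OnePoint ℂ) := OnePoint.some '' (GG e '' {v | Q v < 1}) with hA
    set B : Set (OnePoint ℂ) := (OnePoint.some '' (GG e '' {v | Q v ≤ 1}))ᶜ with hB
    have hAo' : IsOpen A := OnePoint.isOpen_image_coe.2 hVo
    have hBo : IsOpen B := OnePoint.isOpen_compl_image_coe.2 ⟨hVc.isClosed, hVc⟩
    have hAB : Disjoint A B := by
      rw [Set.disjoint_left]
      rintro _ ⟨_, ⟨v, hv, rfl⟩, rfl⟩ hp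
      have hv' : Q v ≤ 1 := le_of_lt hv
      exact hp ⟨_, ⟨v, hv', rfl⟩, rfl⟩
    have hcov : (OnePoint.some '' U)ᶜ ⊆ A ∪ B := by
      intro p hp
      by_cases hpB : p ∈ B
      · exact Or.inr hpB
      · left
        rw [hB, Set.mem_compl_iff, not_not] at hpB
        obtain ⟨_, ⟨v, hv, rfl⟩, rfl⟩ := hpB
        rcases lt_or_eq_of_le (show Q v ≤ 1 from hv) with h | h
        · exact ⟨_, ⟨v, h, rfl⟩, rfl⟩
        · exact absurd ⟨_, hG v h, rfl⟩ hp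
    intro hcon
    set S := connectedComponentIn ((OnePoint.some '' U)ᶜ) (OnePoint.some ((e : ℂ) * Xf t₁)) with hS
    have hSp : IsPreconnected S := isPreconnected_connectedComponentIn
    have hSs : S ⊆ (OnePoint.some '' U)ᶜ := connectedComponentIn_subset _ _
    have hz₁S : OnePoint.some ((e : ℂ) * Xf t₁) ∈ S := by
      apply mem_connectedComponentIn
      rintro ⟨z, hz, hzz⟩
      exact hz₁U (OnePoint.coe_injective hzz ▸ hz)
    have hz₁A : OnePoint.some ((e : ℂ) * Xf t₁) ∈ A := ⟨_, ⟨v₁, hQ₁, hz₁.symm⟩, rfl⟩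
    have hSA : S ⊆ A := hSp.subset_left_of_subset_union hAo' hBo hAB (hSs.trans hcov)
      ⟨_, hz₁S, hz₁A⟩
    obtain ⟨_, ⟨v, hv, rfl⟩, hvz⟩ := hSA hcon
    have h1 := hbig v (Q_rc (le_of_lt hv))
    rw [OnePoint.coe_injective hvz] at h1
    linarith
  refine ⟨f, Gf f, fun z => rfl, U, φ, Real.exp (2 * s), √2, 4, by norm_num, ?_,
    irrational_sqrt_two, hUo, ?_, ?_, ?_, ?_, (e : ℂ) * Xf t₁, z₂, 1, 1, one_pos, one_pos, ?_, ?_,
    ?_, ?_, hz₁U, hz₂U, hsep⟩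
  · rw [← Real.exp_zero]
    exact Real.exp_lt_exp.2 (by linarith)
  · exact hTd.const_mul _
  · rintro _ ⟨ζ, hζ, rfl⟩ _ ⟨ζ', hζ', rfl⟩ h
    rw [hφΘ ζ hζ, hφΘ ζ' hζ'] at h
    rw [mul_left_cancel₀ hes' h]
  · ext w
    constructor
    · rintro ⟨_, ⟨ζ, hζ, rfl⟩, rfl⟩
      rw [hφΘ ζ hζ]
      have h2 := hnorm ζ
      constructor
      · rw [h2]
        calc 1 = Real.exp s * Real.exp (-s) := hee.symm
          _ < Real.exp s * ‖ζ‖ := mul_lt_mul_of_pos_left hζ.1 hes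
      · rw [h2, two_mul, Real.exp_add]
        exact mul_lt_mul_of_pos_left hζ.2 hes
    · rintro ⟨h1, h2⟩
      set ζ : ℂ := ((Real.exp (-s) : ℝ) : ℂ) * w with hζd
      have hn : ‖ζ‖ = Real.exp (-s) * ‖w‖ := by
        rw [hζd, norm_mul, Complex.norm_real, Real.norm_eq_abs, abs_of_pos (Real.exp_pos _)]
      have hζ : ζ ∈ An s := by
        constructor
        · rw [hn]
          nlinarith [Real.exp_pos (-s)]
        · rw [hn]
          calc Real.exp (-s) * ‖w‖ < Real.exp (-s) * Real.exp (2 * s) :=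
                mul_lt_mul_of_pos_left h2 (Real.exp_pos _)
            _ = Real.exp s := by
                rw [← Real.exp_add]
                ring_nf
      refine ⟨Θ ζ, ⟨ζ, hζ, rfl⟩, ?_⟩
      rw [hφΘ ζ hζ, hζd, ← mul_assoc, ← Complex.ofReal_mul, hee, Complex.ofReal_one, one_mul]
  · rintro _ ⟨ζ, hζ, rfl⟩
    have h1 : μ * ζ ∈ An s := Pool.Agent.Helper114.Konig.mul_mem_An hμ1 hζ
    have h2 : (Gf f)^[4] (Θ ζ) = Θ (μ * ζ) := hrot ζ hζ
    rw [h2]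
    refine ⟨⟨_, h1, rfl⟩, ?_⟩
    rw [hφΘ _ h1, hφΘ _ hζ, hμ]
    have h3 : 2 * (Real.pi : ℂ) * Complex.I * ((√2 : ℝ) : ℂ) =
        2 * (Real.pi : ℂ) * ((√2 : ℝ) : ℂ) * Complex.I := by ring
    rw [h3]
    ring
  · rw [Function.iterate_one]
    exact h₁
  · rw [Function.iterate_one]
    exact h₁'
  · rw [Function.iterate_one]
    exact h₂
  · rw [Function.iterate_one]
    exact h₂'

end Pool.Agent.H788R2.Cheb
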