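import Pool.Agent.H531R2.D4.ShDefs

/-! Task C: properness at infinity (helper143). -/

set_option autoImplicit false

namespace Pool.Agent.H531R2.D4

open Polynomial

section C1

variable {F : Type} [Field F]

/-- `y` is bounded at infinity -/
def Bd (y : RatFunc F) : Prop :=
  ∃ U V : F[X], V ≠ 0 ∧ U.degree ≤ V.degree ∧ y = algebraMap F[X] (RatFunc F) U / algebraMap F[X] (RatFunc F) V

theorem proper_zero : Proper (0 : RatFunc F) := by
  refine ⟨0, 1, one_ne_zero, ?_, by simp⟩
  rw [degree_zero, degree_one]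
  exact WithBot.bot_lt_coe 0

theorem Proper.bd {y : RatFunc F} (h : Proper y) : Bd y := by
  obtain ⟨U, V, hV, hd, rfl⟩ := h
  exact ⟨U, V, hV, hd.le, rfl⟩

theorem bd_C (c : F) : Bd (algebraMap F[X] (RatFunc F) (C c)) :=
  ⟨C c, 1, one_ne_zero, by rw [degree_one]; exact degree_C_le, by rw [map_one, div_one]⟩

private theorem deg_mul_lt {U V V' : F[X]} (hV' : V' ≠ 0) (h : U.degree < V.degree) :
    (U * V').degree < (V * V').degree := by
  rw [degree_mul, degree_mul, degree_eq_natDegree hV']
  exact WithBot.add_lt_add_right (WithBot.coe_ne_bot) h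

private theorem deg_mul_le {U V U' V' : F[X]} (h : U.degree ≤ V.degree)
    (h' : U'.degree ≤ V'.degree) : (U * U').degree ≤ (V * V').degree := by
  rw [degree_mul, degree_mul]
  exact add_le_add h h'

theorem Proper.add {x y : RatFunc F} (hx : Proper x) (hy : Proper y) : Proper (x + y) := by
  obtain ⟨U, V, hV, hd, rfl⟩ := hx
  obtain ⟨U', V', hV', hd', rfl⟩ := hy
  refine ⟨U * V' + U' * V, V * V', mul_ne_zero hV hV', ?_, ?_⟩
  · refine lt_of_le_of_lt (degree_add_le _ _) (max_lt (deg_mul_lt hV' hd) ?_)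
    rw [mul_comm V V']
    exact deg_mul_lt hV hd'
  · have h1 := ι_ne hV
    have h2 := ι_ne hV'
    rw [map_add, map_mul, map_mul, map_mul]
    field_simp

theorem Bd.add {x y : RatFunc F} (hx : Bd x) (hy : Bd y) : Bd (x + y) := by
  obtain ⟨U, V, hV, hd, rfl⟩ := hx
  obtain ⟨U', V', hV', hd', rfl⟩ := hy
  refine ⟨U * V' + U' * V, V * V', mul_ne_zero hV hV', ?_, ?_⟩
  · refine (degree_add_le _ _).trans (max_le (deg_mul_le hd le_rfl) ?_)
    rw [mul_comm V V']
    exact deg_mul_le hd' le_rfl
  · have h1 := ι_ne hV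
    have h2 := ι_ne hV'
    rw [map_add, map_mul, map_mul, map_mul]
    field_simp

theorem Proper.mul_bd {x y : RatFunc F} (hx : Proper x) (hy : Bd y) : Proper (x * y) := by
  obtain ⟨U, V, hV, hd, rfl⟩ := hx
  obtain ⟨U', V', hV', hd', rfl⟩ := hy
  refine ⟨U * U', V * V', mul_ne_zero hV hV', ?_, ?_⟩
  · exact lt_of_le_of_lt (deg_mul_le le_rfl hd') (deg_mul_lt hV' hd)
  · rw [map_mul, map_mul, div_mul_div_comm]

theorem Bd.mul {x y : RatFunc F} (hx : Bd x) (hy : Bd y) : Bd (x * y) := by
  obtain ⟨U, V, hV, hd, rfl⟩ := hx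
  obtain ⟨U', V', hV', hd', rfl⟩ := hy
  refine ⟨U * U', V * V', mul_ne_zero hV hV', deg_mul_le hd hd', ?_⟩
  rw [map_mul, map_mul, div_mul_div_comm]

theorem Proper.neg {x : RatFunc F} (hx : Proper x) : Proper (-x) := by
  obtain ⟨U, V, hV, hd, rfl⟩ := hx
  exact ⟨-U, V, hV, by rwa [degree_neg], by rw [map_neg, neg_div]⟩

theorem Bd.neg {x : RatFunc F} (hx : Bd x) : Bd (-x) := by
  obtain ⟨U, V, hV, hd, rfl⟩ := hx
  exact ⟨-U, V, hV, by rwa [degree_neg], by rw [map_neg, neg_div]⟩

theorem bd_one : Bd (1 : RatFunc F) := by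
  have := bd_C (1 : F)
  rwa [map_one, map_one] at this

theorem bd_zero : Bd (0 : RatFunc F) := proper_zero.bd

theorem Bd.sum {α : Type} (s : Finset α) {f : α → RatFunc F}
    (h : ∀ a ∈ s, Bd (f a)) : Bd (∑ a ∈ s, f a) := by
  classical
  induction s using Finset.induction_on with
  | empty => rw [Finset.sum_empty]; exact bd_zero
  | insert a s ha ih =>
    rw [Finset.sum_insert ha]
    exact (h a (Finset.mem_insert_self _ _)).add (ih fun b hb => h b (Finset.mem_insert_of_mem hb))

theorem Bd.prod {α : Type} (s : Finset α) {f : α → RatFunc F}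
    (h : ∀ a ∈ s, Bd (f a)) : Bd (∏ a ∈ s, f a) := by
  classical
  induction s using Finset.induction_on with
  | empty => rw [Finset.prod_empty]; exact bd_one
  | insert a s ha ih =>
    rw [Finset.prod_insert ha]
    exact (h a (Finset.mem_insert_self _ _)).mul (ih fun b hb => h b (Finset.mem_insert_of_mem hb))

theorem Proper.sum {α : Type} (s : Finset α) {f : α → RatFunc F}
    (h : ∀ a ∈ s, Proper (f a)) : Proper (∑ a ∈ s, f a) := by
  classical
  induction s using Finset.induction_on with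
  | empty => rw [Finset.sum_empty]; exact proper_zero
  | insert a s ha ih =>
    rw [Finset.sum_insert ha]
    exact (h a (Finset.mem_insert_self _ _)).add (ih fun b hb => h b (Finset.mem_insert_of_mem hb))

theorem Bd.det {n : ℕ} {M : Matrix (Fin n) (Fin n) (RatFunc F)}
    (h : ∀ i j, Bd (M i j)) : Bd M.det := by
  rw [Matrix.det_apply']
  refine Bd.sum _ fun σ _ => Bd.mul ?_ (Bd.prod _ fun i _ => h _ _)
  have h1 : ((Equiv.Perm.sign σ : ℤ) : RatFunc F) = algebraMap F[X] (RatFunc F) (C ((Equiv.Perm.sign σ : ℤ) : F)) := by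
    simp
  rw [h1]
  exact bd_C _

end C1

section C2

variable {K F : Type} [Field K] [Field F] [Algebra K F] {I : Type} (D : I → Derivation K F F)

theorem logder_div {E : Type} [Field E] [Algebra K E] (d : Derivation K E E) {g h : E}
    (hg : g ≠ 0) (hh : h ≠ 0) : d (g / h) / (g / h) = d g / g - d h / h := by
  have h1 : g / h ≠ 0 := div_ne_zero hg hh
  have h2 := logder_mul d h1 hh
  rw [div_mul_cancel₀ _ hh] at h2
  rw [h2]
  ring

theorem proper_logder_none {f : RatFunc F} (hf : f ≠ 0) : Proper (DX D none f / f) := by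
  obtain ⟨a, b, hb, rfl⟩ := IsFractionRing.div_surjective (A := F[X]) f
  have hb0 : b ≠ 0 := nonZeroDivisors.ne_zero hb
  have ha0 : a ≠ 0 := by
    rintro rfl
    apply hf
    rw [map_zero, zero_div]
  have key : ∀ c : F[X], c ≠ 0 → Proper (DX D none (algebraMap F[X] (RatFunc F) c) / algebraMap F[X] (RatFunc F) c) := by
    intro c hc
    rw [DX_none]
    exact ⟨derivative c, c, hc, degree_derivative_lt hc, rfl⟩
  rw [logder_div _ (ι_ne ha0) (ι_ne hb0), sub_eq_add_neg]
  exact (key a ha0).add (key b hb0).neg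

theorem bd_logder {f : RatFunc F} (hf : f ≠ 0) (i : Option I) : Bd (DX D i f / f) := by
  rcases i with _ | i
  · exact (proper_logder_none D hf).bd
  obtain ⟨a, b, hb, rfl⟩ := IsFractionRing.div_surjective (A := F[X]) f
  have hb0 : b ≠ 0 := nonZeroDivisors.ne_zero hb
  have ha0 : a ≠ 0 := by
    rintro rfl
    apply hf
    rw [map_zero, zero_div]
  have key : ∀ c : F[X], c ≠ 0 → Bd (DX D (some i) (algebraMap F[X] (RatFunc F) c) / algebraMap F[X] (RatFunc F) c) := by
    intro c hc
    rw [DX_some]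
    refine ⟨mapD (D i) c, c, hc, ?_, rfl⟩
    rw [degree_le_iff_coeff_zero]
    intro m hm
    rw [coeff_mapD, coeff_eq_zero_of_degree_lt hm, map_zero]
  rw [logder_div _ (ι_ne ha0) (ι_ne hb0), sub_eq_add_neg]
  exact (key a ha0).add (key b hb0).neg

theorem Lam_proper' {q : ℕ} {H : (Fin (q + 1) → Option I) → RatFunc F}
    (hH : H ∈ Lam (DX D) (q + 1)) (w : Fin q → Option I) : Proper (H (Fin.cons none w)) := by
  refine Lam_induction (DX D) (p := fun H => Proper (H (Fin.cons none w))) hH ?_ ?_ ?_ ?_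
  · intro f hf
    rw [lam, Matrix.det_succ_row_zero]
    refine Proper.sum _ fun j _ => ?_
    have h1 : Proper ((Matrix.of fun (i : Fin (q + 1)) (j : Fin (q + 1)) =>
        DX D ((Fin.cons none w : Fin (q + 1) → Option I) i) (f j) / f j) 0 j) := by
      rw [Matrix.of_apply, Fin.cons_zero]
      exact proper_logder_none D (hf j)
    have h2 : Bd ((-1 : RatFunc F) ^ (j : ℕ)) := by
      have : ((-1 : RatFunc F) ^ (j : ℕ)) = algebraMap F[X] (RatFunc F) (C ((-1 : F) ^ (j : ℕ))) := by simp
      rw [this]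
      exact bd_C _
    rw [mul_comm ((-1 : RatFunc F) ^ (j : ℕ)) _]
    refine (h1.mul_bd h2).mul_bd (Bd.det fun a b => ?_)
    rw [Matrix.submatrix_apply, Matrix.of_apply]
    exact bd_logder D (hf _) _
  · exact proper_zero
  · intro x y hx hy
    rw [Pi.add_apply]
    exact hx.add hy
  · intro c x hx
    rw [Pi.smul_apply, Algebra.smul_def, mul_comm, IsScalarTower.algebraMap_apply K F[X] (RatFunc F),
      Polynomial.algebraMap_apply]
    exact hx.mul_bd (bd_C _)

/-- a proper fraction which is regular at all irreducible factors of its denominator vanishes -/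
theorem eq_zero_of_reg' (Ps : Finset F[X]) (hPs : ∀ P ∈ Ps, Irreducible P) {y : RatFunc F}
    (hy : Proper y) (S : Multiset F[X]) (hS : ∀ P ∈ S, P ∈ Ps) (B : F[X])
    (hB : y = algebraMap F[X] (RatFunc F) B / algebraMap F[X] (RatFunc F) S.prod)
    (hreg : ∀ P ∈ Ps, Reg P y) : y = 0 := by
  induction S using Multiset.induction_on generalizing B with
  | empty =>
    rw [Multiset.prod_zero, map_one, div_one] at hB
    obtain ⟨U, V, hV, hd, h⟩ := hy
    rw [hB, eq_div_iff (ι_ne hV), ← map_mul] at h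
    have h1 := RatFunc.algebraMap_injective F h
    by_cases hB0 : B = 0
    · rw [hB, hB0, map_zero]
    · exfalso
      rw [← h1, degree_mul, degree_eq_natDegree hB0, degree_eq_natDegree hV] at hd
      have h2 : ((B.natDegree + V.natDegree : ℕ) : WithBot ℕ) < (V.natDegree : WithBot ℕ) := by
        exact_mod_cast hd
      have h3 : B.natDegree + V.natDegree < V.natDegree := by exact_mod_cast h2
      omega
  | cons P S ih =>
    have hP : Irreducible P := hPs P (hS P (Multiset.mem_cons_self P S))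
    have hS' : ∀ Q ∈ S, Q ∈ Ps := fun Q hQ => hS Q (Multiset.mem_cons_of_mem hQ)
    have hSp : S.prod ≠ 0 := by
      intro h0
      rw [Multiset.prod_eq_zero_iff] at h0
      exact (hPs _ (hS' 0 h0)).ne_zero rfl
    obtain ⟨U, V, hV, h⟩ := hreg P (hS P (Multiset.mem_cons_self P S))
    rw [Multiset.prod_cons] at hB
    have h1 : P ∣ B := by
      rw [hB, div_eq_div_iff (ι_ne (mul_ne_zero hP.ne_zero hSp)) (ι_ne (ne_of_not_dvd hV)),
        ← map_mul, ← map_mul] at h
      have h2 := RatFunc.algebraMap_injective F h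
      have h3 : P ∣ B * V := by
        rw [h2]
        exact Dvd.dvd.mul_left (dvd_mul_right _ _) _
      exact (hP.prime.dvd_or_dvd h3).resolve_right hV
    obtain ⟨B', rfl⟩ := h1
    refine ih hS' B' ?_
    rw [hB, map_mul, map_mul, mul_div_mul_left _ _ (ι_ne hP.ne_zero)]

end C2

end Pool.Agent.H531R2.D4
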