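import Pool.Agent.H295R2.MK.Defs

set_option autoImplicit false

/-!
Lower bounds for the moments of zeta, task A2: the local weights of the four variable weight.
-/

namespace Pool.Agent.H143R2.MK_A2

open Finset Filter Topology MeasureTheory Complex
open Pool.Agent.H306R2 Pool.Agent.H223.EM H295MK

noncomputable section

lemma sub_mul {α : ℝ} (hα : 1 ≤ α) (a b : ℕ) : lc α (a + b) ≤ lc α a * lc α b := by
  induction b with
  | zero => rw [lc_zero, mul_one, add_zero]
  | succ b ih =>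
    rw [← add_assoc, lc_succ, lc_succ, ← mul_assoc]
    have h0 : 0 ≤ lc α a * lc α b :=
      mul_nonneg (lc_nonneg (by linarith) a) (lc_nonneg (by linarith) b)
    refine mul_le_mul ih ?_ (by positivity) h0
    rw [div_le_div_iff₀ (by positivity) (by positivity)]
    push_cast
    have ha : (0 : ℝ) ≤ a := Nat.cast_nonneg a
    nlinarith

lemma lam_nonneg (j p : ℕ) (v : Fin 4 → ℕ) : 0 ≤ lam4 j p v := by
  have hj : (0 : ℝ) ≤ j := Nat.cast_nonneg j
  have h := fun m => lc_nonneg hj m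
  unfold lam4
  split_ifs
  · have h1 := h (v 0 + v 2)
    have h2 := h (v 1 + v 2)
    have h3 := h (v 0 + v 3)
    have h4 := h (v 1 + v 3)
    positivity
  · exact le_rfl

lemma pi_summable {r : ℕ} (g : ℕ → ℝ) (hg : ∀ n, 0 ≤ g n) (hs : Summable g) :
    Summable (fun v : Fin r → ℕ => ∏ i, g (v i)) := by
  refine summable_of_sum_le (c := (∑' n, g n) ^ r) (fun v => prod_nonneg fun i _ => hg _) fun s => ?_
  let N := s.sup (fun v => univ.sup v)
  calc ∑ v ∈ s, ∏ i, g (v i) ≤ ∑ v ∈ Fintype.piFinset (fun _ : Fin r => range (N + 1)), ∏ i, g (v i) := by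
        refine sum_le_sum_of_subset_of_nonneg ?_ (fun v _ _ => prod_nonneg fun i _ => hg _)
        intro v hv
        rw [Fintype.mem_piFinset]
        intro i
        rw [mem_range]
        have h1 : v i ≤ univ.sup v := le_sup (f := v) (mem_univ i)
        have h2 : univ.sup v ≤ N := le_sup (f := fun v : Fin r → ℕ => univ.sup v) hv
        omega
    _ = ∏ _i : Fin r, ∑ j ∈ range (N + 1), g j := by
        rw [Finset.prod_univ_sum]
    _ ≤ ∏ _i : Fin r, ∑' n, g n := by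
        refine prod_le_prod (fun i _ => sum_nonneg fun j _ => hg j) (fun i _ => ?_)
        exact hs.sum_le_tsum _ (fun j _ => hg j)
    _ = (∑' n, g n) ^ r := by simp

lemma g_summable {j : ℕ} (hj : 1 ≤ j) {x : ℝ} (hx0 : 0 < x) (hx1 : x < 1) :
    Summable (fun n : ℕ => lc j n ^ 2 * x ^ n) := by
  have hj' : (0 : ℝ) < j := by exact_mod_cast hj
  refine Summable.of_nonneg_of_le (fun n => by positivity) (fun n => ?_)
    (lc_summable (α := (j : ℝ) ^ 2) (by positivity) hx0 hx1)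
  exact mul_le_mul_of_nonneg_right (lc_sq_le hj'.le n) (by positivity)

/-- crude majorant -/
lemma lam_le {j p : ℕ} (hj : 1 ≤ j) (v : Fin 4 → ℕ) :
    lam4 j p v ≤ ∏ i, (lc j (v i) ^ 2 * (1 / (p : ℝ)) ^ (v i)) := by
  have hj' : (1 : ℝ) ≤ j := by exact_mod_cast hj
  have hn := fun m => lc_nonneg (α := (j : ℝ)) (by linarith) m
  have e : ∏ i, (lc j (v i) ^ 2 * (1 / (p : ℝ)) ^ (v i)) =
      (lc j (v 0) * lc j (v 2)) * (lc j (v 1) * lc j (v 2)) * (lc j (v 0) * lc j (v 3)) *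
        (lc j (v 1) * lc j (v 3)) * (1 / (p : ℝ)) ^ (v 0 + v 1 + v 2 + v 3) := by
    rw [Fin.prod_univ_four]; ring
  rw [e]
  have h0 := hn (v 0)
  have h1 := hn (v 1)
  have h2 := hn (v 2)
  have h3 := hn (v 3)
  unfold lam4
  split_ifs
  · have g1 := sub_mul hj' (v 0) (v 2)
    have g2 := sub_mul hj' (v 1) (v 2)
    have g3 := sub_mul hj' (v 0) (v 3)
    have g4 := sub_mul hj' (v 1) (v 3)
    have k1 := hn (v 0 + v 2)
    have k2 := hn (v 1 + v 2)
    have k3 := hn (v 0 + v 3)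
    have k4 := hn (v 1 + v 3)
    gcongr
  · positivity

lemma prime_x {p : ℕ} (hp : p.Prime) : (0 : ℝ) < 1 / (p : ℝ) ∧ 1 / (p : ℝ) ≤ 1 / 2 := by
  have h2 : (2 : ℝ) ≤ p := by exact_mod_cast hp.two_le
  refine ⟨by positivity, ?_⟩
  exact one_div_le_one_div_of_le (by norm_num) h2

lemma lam_summable {j p : ℕ} (hj : 1 ≤ j) (hp : p.Prime) : Summable (lam4 j p) := by
  obtain ⟨h0, h1⟩ := prime_x hp
  refine Summable.of_nonneg_of_le (lam_nonneg j p) (fun v => lam_le hj v) ?_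
  exact pi_summable (fun n : ℕ => lc j n ^ 2 * (1 / (p : ℝ)) ^ n) (fun n => by positivity)
    (g_summable hj h0 (by linarith))

lemma lam_zero (j p : ℕ) : lam4 j p 0 = 1 := by
  simp [lam4, lc_zero]

lemma lam_first (j p : ℕ) (i : Fin 4) : lam4 j p (Pi.single i 1) = (j : ℝ) ^ 2 / p := by
  fin_cases i <;> simp [lam4, lc_zero, lc_one] <;> ring

lemma lam_second_le {j p : ℕ} (hj : 1 ≤ j) (hp : p.Prime) (v : Fin 4 → ℕ) :
    (if 2 ≤ ∑ i, v i then lam4 j p v else 0) ≤
      4 / (p : ℝ) ^ 2 * ∏ i, (lc j (v i) ^ 2 * (1 / 2 : ℝ) ^ (v i)) := by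
  obtain ⟨h0, h1⟩ := prime_x hp
  have hpos : (0 : ℝ) < p := by exact_mod_cast hp.pos
  split_ifs with h
  · refine (lam_le hj v).trans ?_
    rw [prod_mul_distrib, prod_mul_distrib, prod_pow_eq_pow_sum, prod_pow_eq_pow_sum]
    obtain ⟨k, hk⟩ := Nat.exists_eq_add_of_le h
    rw [hk, pow_add, pow_add]
    have h3 : (1 / (p : ℝ)) ^ k ≤ (1 / 2 : ℝ) ^ k := pow_le_pow_left₀ h0.le h1 k
    have h4 : (0 : ℝ) ≤ ∏ i, lc j (v i) ^ 2 := prod_nonneg fun i _ => by positivity
    calc (∏ i, lc j (v i) ^ 2) * ((1 / (p : ℝ)) ^ 2 * (1 / (p : ℝ)) ^ k)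
        ≤ (∏ i, lc j (v i) ^ 2) * ((1 / (p : ℝ)) ^ 2 * (1 / 2 : ℝ) ^ k) := by gcongr
      _ = 4 / (p : ℝ) ^ 2 * ((∏ i, lc j (v i) ^ 2) * ((1 / 2 : ℝ) ^ 2 * (1 / 2 : ℝ) ^ k)) := by
        field_simp
        ring
  · have h4 : (0 : ℝ) ≤ ∏ i, (lc j (v i) ^ 2 * (1 / 2 : ℝ) ^ (v i)) :=
      prod_nonneg fun i _ => by positivity
    positivity

theorem lw4 : LW4 := by
  intro j hj
  exact
  { nonneg := fun p _ v => lam_nonneg j p v
    zero := fun p _ => lam_zero j p
    sum := fun p hp => lam_summable hj hp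
    first := ⟨0, fun p hp i => by
      rw [lam_first]
      push_cast
      simp⟩
    second := ⟨4 * ∑' v : Fin 4 → ℕ, ∏ i, (lc j (v i) ^ 2 * (1 / 2 : ℝ) ^ (v i)), fun p hp => by
      have hs : Summable (fun v : Fin 4 → ℕ => ∏ i, (lc j (v i) ^ 2 * (1 / 2 : ℝ) ^ (v i))) :=
        pi_summable (fun n : ℕ => lc j n ^ 2 * (1 / 2 : ℝ) ^ n) (fun n => by positivity)
          (g_summable hj (by norm_num) (by norm_num))
      have hs' := hs.mul_left (4 / (p : ℝ) ^ 2)
      have hl : Summable (fun v : Fin 4 → ℕ => if 2 ≤ ∑ i, v i then lam4 j p v else 0) := by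
        refine Summable.of_nonneg_of_le (fun v => ?_) (fun v => lam_second_le hj hp v) hs'
        split_ifs
        · exact lam_nonneg j p v
        · exact le_rfl
      refine (hl.tsum_le_tsum (fun v => lam_second_le hj hp v) hs').trans ?_
      rw [tsum_mul_left]
      apply le_of_eq; ring⟩ }

end

end Pool.Agent.H143R2.MK_A2
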