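import Mathlib
import Pool.Agent.H295R2.Beu.Defs

/-!
# The Mellin transform of `psi` has no zero in the strip `0 < Re s < 1`
-/

set_option autoImplicit false

open MeasureTheory Filter Topology Set

namespace Pool.Agent.H143R2.PsiNe

noncomputable section

/-- `∫_0^∞ u^a g(u) du` -/
def I (a : ℂ) (g : ℝ → ℝ) : ℂ := ∫ u in Ioi (0:ℝ), (u : ℂ) ^ a * (g u : ℂ)

theorem int_pow {a : ℂ} {k C : ℝ} {g : ℝ → ℝ} (hg : Measurable g)
    (h1 : ∀ u, 0 < u → |g u| ≤ C) (h2 : ∀ u, 0 < u → |g u| ≤ C * u ^ k)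
    (ha : a.re < -1) (hk : -1 < a.re + k) :
    IntegrableOn (fun u : ℝ => (u : ℂ) ^ a * (g u : ℂ)) (Ioi 0) := by
  have hm : Measurable (fun u : ℝ => (u : ℂ) ^ a * (g u : ℂ)) :=
    (Complex.measurable_ofReal.pow_const a).mul (Complex.measurable_ofReal.comp hg)
  rw [← Ioc_union_Ioi_eq_Ioi (zero_le_one (α := ℝ))]
  refine IntegrableOn.union ?_ ?_
  · have h3 : IntegrableOn (fun u : ℝ => C * u ^ (a.re + k)) (Ioc 0 1) := by
      have := (intervalIntegral.intervalIntegrable_rpow' (a := 0) (b := 1) hk).1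
      exact this.const_mul C
    refine Integrable.mono' h3 hm.aestronglyMeasurable ?_
    refine (ae_restrict_iff' measurableSet_Ioc).2 (Eventually.of_forall fun u hu => ?_)
    have hu0 : 0 < u := hu.1
    rw [norm_mul, Complex.norm_cpow_eq_rpow_re_of_pos hu0, Complex.norm_real, Real.norm_eq_abs,
      Real.rpow_add hu0]
    calc u ^ a.re * |g u| ≤ u ^ a.re * (C * u ^ k) :=
        mul_le_mul_of_nonneg_left (h2 u hu0) (Real.rpow_nonneg hu0.le _)
      _ = _ := by ring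
  · have h3 : IntegrableOn (fun u : ℝ => C * u ^ a.re) (Ioi 1) :=
      (integrableOn_Ioi_rpow_of_lt ha one_pos).const_mul C
    refine Integrable.mono' h3 hm.aestronglyMeasurable ?_
    refine (ae_restrict_iff' measurableSet_Ioi).2 (Eventually.of_forall fun u hu => ?_)
    have hu0 : 0 < u := lt_trans one_pos hu
    rw [norm_mul, Complex.norm_cpow_eq_rpow_re_of_pos hu0, Complex.norm_real, Real.norm_eq_abs]
    calc u ^ a.re * |g u| ≤ u ^ a.re * C :=
        mul_le_mul_of_nonneg_left (h1 u hu0) (Real.rpow_nonneg hu0.le _)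
      _ = _ := by ring

theorem I_scale (a : ℂ) (g : ℝ → ℝ) {x : ℝ} (hx : 0 < x) :
    I a (fun u => g (x * u)) = (x : ℂ) ^ (-a - 1) * I a g := by
  have h := mellin_comp_mul_left (fun u => (g u : ℂ)) (a + 1) hx
  unfold mellin at h
  simp only [add_sub_cancel_right, smul_eq_mul] at h
  unfold I
  rw [h, show -(a + 1) = -a - 1 by ring]

theorem hasDerivAt_cpow (a : ℂ) {u : ℝ} (hu : 0 < u) :
    HasDerivAt (fun u : ℝ => (u : ℂ) ^ a) (a * (u : ℂ) ^ (a - 1)) u := by
  have h1 : HasDerivAt (fun z : ℂ => z ^ a) (a * (u : ℂ) ^ (a - 1) * 1) (u : ℂ) :=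
    (hasDerivAt_id (u : ℂ)).cpow_const (by
      show (u : ℂ) ∈ Complex.slitPlane
      rw [Complex.ofReal_mem_slitPlane]; exact hu)
  rw [mul_one] at h1
  exact h1.comp_ofReal

theorem byparts {a : ℂ} {C : ℝ} {g g' : ℝ → ℝ} (hg : Measurable g) (hg' : Measurable g')
    (hd : ∀ u, 0 < u → HasDerivAt g (g' u) u)
    (h1 : ∀ u, 0 < u → |g u| ≤ C) (h2 : ∀ u, 0 < u → |g u| ≤ C * u ^ (2:ℝ))
    (h1' : ∀ u, 0 < u → |g' u| ≤ C) (h2' : ∀ u, 0 < u → |g' u| ≤ C * u ^ (1:ℝ))
    (ha : a.re < -1) (ha2 : -2 < a.re) : I a g' = -a * I (a - 1) g := by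
  have ha0 : a ≠ 0 := by
    rintro rfl
    rw [Complex.zero_re] at ha
    linarith
  have hre : (a - 1).re = a.re - 1 := by simp
  have i1 : IntegrableOn (fun u : ℝ => (u:ℂ) ^ (a - 1) * (g u : ℂ)) (Ioi 0) :=
    int_pow hg h1 h2 (by rw [hre]; linarith) (by rw [hre]; linarith)
  have i2 : IntegrableOn (fun u : ℝ => (u:ℂ) ^ a * (g' u : ℂ)) (Ioi 0) :=
    int_pow hg' h1' h2' ha (by linarith)
  set f : ℝ → ℂ := fun u => (u:ℂ) ^ a * (g u : ℂ) with hf
  have hf0 : f 0 = 0 := by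
    simp only [hf, Complex.ofReal_zero, Complex.zero_cpow ha0, zero_mul]
  have hder : ∀ u ∈ Ioi (0:ℝ),
      HasDerivAt f (a * ((u:ℂ) ^ (a - 1) * (g u : ℂ)) + (u:ℂ) ^ a * (g' u : ℂ)) u := by
    intro u hu
    have e1 := (hasDerivAt_cpow a hu).fun_mul (hd u hu).ofReal_comp
    exact e1.congr_deriv (by ring)
  have hcont : ContinuousWithinAt f (Ici 0) 0 := by
    unfold ContinuousWithinAt
    rw [hf0]
    have hb : ∀ u ∈ Ici (0:ℝ), ‖f u‖ ≤ C * u ^ (a.re + 2) := by
      intro u hu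
      rcases eq_or_lt_of_le (mem_Ici.1 hu) with h | h
      · rw [← h, hf0, norm_zero, Real.zero_rpow (by linarith), mul_zero]
      · simp only [hf]
        rw [norm_mul, Complex.norm_cpow_eq_rpow_re_of_pos h, Complex.norm_real, Real.norm_eq_abs,
          Real.rpow_add h]
        calc u ^ a.re * |g u| ≤ u ^ a.re * (C * u ^ (2:ℝ)) :=
            mul_le_mul_of_nonneg_left (h2 u h) (Real.rpow_nonneg h.le _)
          _ = _ := by ring
    have ht : Tendsto (fun u : ℝ => C * u ^ (a.re + 2)) (𝓝[≥] 0) (𝓝 0) := by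
      have h3 : ContinuousAt (fun u : ℝ => C * u ^ (a.re + 2)) 0 :=
        continuousAt_const.mul (Real.continuousAt_rpow_const 0 _ (Or.inr (by linarith)))
      have h4 := h3.tendsto
      rw [Real.zero_rpow (by linarith), mul_zero] at h4
      exact h4.mono_left nhdsWithin_le_nhds
    exact squeeze_zero_norm' (eventually_nhdsWithin_of_forall hb) ht
  have htop : Tendsto f atTop (𝓝 0) := by
    have hb : ∀ᶠ u in atTop, ‖f u‖ ≤ C * u ^ a.re := by
      filter_upwards [eventually_gt_atTop 0] with u h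
      simp only [hf]
      rw [norm_mul, Complex.norm_cpow_eq_rpow_re_of_pos h, Complex.norm_real, Real.norm_eq_abs]
      calc u ^ a.re * |g u| ≤ u ^ a.re * C :=
          mul_le_mul_of_nonneg_left (h1 u h) (Real.rpow_nonneg h.le _)
        _ = _ := by ring
    have ht : Tendsto (fun u : ℝ => C * u ^ a.re) atTop (𝓝 0) := by
      have := (tendsto_rpow_neg_atTop (y := -a.re) (by linarith)).const_mul C
      rw [mul_zero, neg_neg] at this
      exact this
    exact squeeze_zero_norm' hb ht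
  have h3 := integral_Ioi_of_hasDerivAt_of_tendsto hcont hder ((i1.const_mul a).add i2) htop
  rw [hf0, sub_zero, integral_add (i1.const_mul a) i2, integral_const_mul] at h3
  unfold I
  linear_combination h3

theorem int4 {μ : Measure ℝ} {A B C D : ℝ → ℂ} (hA : Integrable A μ) (hB : Integrable B μ)
    (hC : Integrable C μ) (hD : Integrable D μ) :
    ∫ x, (A x - B x - C x + D x) ∂μ = ∫ x, A x ∂μ - ∫ x, B x ∂μ - ∫ x, C x ∂μ + ∫ x, D x ∂μ := by
  have h1 : Integrable (fun x => A x - B x) μ := hA.sub hB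
  have h2 : Integrable (fun x => A x - B x - C x) μ := h1.sub hC
  rw [integral_add h2 hD, integral_sub h1 hC, integral_sub hA hB]

theorem int3 {μ : Measure ℝ} {A B C : ℝ → ℂ} (hA : Integrable A μ) (hB : Integrable B μ)
    (hC : Integrable C μ) :
    ∫ x, (A x - (B x + C x)) ∂μ = ∫ x, A x ∂μ - (∫ x, B x ∂μ + ∫ x, C x ∂μ) := by
  have h1 : Integrable (fun x => B x + C x) μ := hB.add hC
  rw [integral_sub hA h1, integral_add hB hC]

/-- `1 - cos` -/
def ph (u : ℝ) : ℝ := 1 - Real.cos u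

theorem ph_nonneg (u : ℝ) : 0 ≤ ph u := by unfold ph; linarith [Real.cos_le_one u]
theorem ph_le (u : ℝ) : ph u ≤ 2 := by unfold ph; linarith [Real.neg_one_le_cos u]
theorem ph_le_sq (u : ℝ) : ph u ≤ u ^ 2 / 2 := by
  unfold ph; linarith [Real.one_sub_sq_div_two_le_cos (x := u)]
theorem ph_meas : Measurable ph := by unfold ph; fun_prop

theorem ph_b1 (u : ℝ) (_ : 0 < u) : |ph u| ≤ 2 := by
  rw [abs_of_nonneg (ph_nonneg u)]; exact ph_le u

theorem ph_b2 (u : ℝ) (_ : 0 < u) : |ph u| ≤ 2 * u ^ (2:ℝ) := by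
  rw [abs_of_nonneg (ph_nonneg u), Real.rpow_two]
  have := ph_le_sq u
  nlinarith [sq_nonneg u]

/-- `M(s) = ∫ u^{s-3} (1 - cos u) du` -/
theorem sin_eq {s : ℂ} (h0 : 0 < s.re) (h1 : s.re < 1) :
    I (s - 2) Real.sin = (2 - s) * I (s - 3) ph := by
  have hre : (s - 2).re = s.re - 2 := by simp
  have h := byparts (a := s - 2) (C := 2) (g := ph) (g' := Real.sin) ph_meas
    Real.measurable_sin (fun u _ => by
      have := (Real.hasDerivAt_cos u).const_sub 1
      rw [neg_neg] at this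
      exact this) ph_b1 ph_b2
    (fun u _ => (Real.abs_sin_le_one u).trans (by norm_num))
    (fun u hu => by
      rw [Real.rpow_one]
      have := Real.abs_sin_le_abs (x := u)
      rw [abs_of_pos hu] at this
      linarith) (by rw [hre]; linarith) (by rw [hre]; linarith)
  rw [h, show s - 2 - 1 = s - 3 by ring]
  ring

open Pool.Agent.H295R2.Beu in
theorem Psi_eq {s : ℂ} (h0 : 0 < s.re) (h1 : s.re < 1) :
    Psi s = (Real.pi : ℂ) ^ (2 - s) * (1 - (2:ℂ) ^ (-s)) * (s / 2) * I (s - 3) ph := by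
  have hpi := Real.pi_pos
  have hre3 : (s - 3).re = s.re - 3 := by simp
  have hre2 : (s - 2).re = s.re - 2 := by simp
  -- integrability of the scaled functions
  have j1 : ∀ c : ℝ, 0 < c →
      IntegrableOn (fun u : ℝ => (u : ℂ) ^ (s - 3) * (ph (c * u) : ℂ)) (Ioi 0) := by
    intro c hc
    refine int_pow (k := 2) (C := 2 + c ^ 2) (g := fun u => ph (c * u))
      (ph_meas.comp (measurable_const_mul c)) ?_ ?_
      (by rw [hre3]; linarith) (by rw [hre3]; linarith)
    · intro u hu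
      rw [abs_of_nonneg (ph_nonneg _)]
      nlinarith [ph_le (c * u), sq_nonneg c]
    · intro u hu
      rw [abs_of_nonneg (ph_nonneg _), Real.rpow_two]
      have := ph_le_sq (c * u)
      nlinarith [sq_nonneg u, sq_nonneg c, mul_nonneg (sq_nonneg u) (sq_nonneg c)]
  have j2 : ∀ c : ℝ, 0 < c →
      IntegrableOn (fun u : ℝ => (u : ℂ) ^ (s - 2) * (Real.sin (c * u) : ℂ)) (Ioi 0) := by
    intro c hc
    refine int_pow (k := 1) (C := 1 + c) (g := fun u => Real.sin (c * u))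
      (Real.measurable_sin.comp (measurable_const_mul c)) ?_ ?_
      (by rw [hre2]; linarith) (by rw [hre2]; linarith)
    · intro u hu
      linarith [Real.abs_sin_le_one (c * u)]
    · intro u hu
      rw [Real.rpow_one]
      have := Real.abs_sin_le_abs (x := c * u)
      rw [abs_of_pos (mul_pos hc hu)] at this
      nlinarith
  have e : ∀ u ∈ Ioi (0:ℝ), (u : ℂ) ^ s * (psi u : ℂ) =
      (u : ℂ) ^ (s - 3) * (ph (Real.pi * u) : ℂ) -
      (1 / 4) * ((u : ℂ) ^ (s - 3) * (ph (2 * Real.pi * u) : ℂ)) -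
      (Real.pi / 2) * ((u : ℂ) ^ (s - 2) * (Real.sin (Real.pi * u) : ℂ)) +
      (Real.pi / 4) * ((u : ℂ) ^ (s - 2) * (Real.sin (2 * Real.pi * u) : ℂ)) := by
    intro u hu
    have hu0 : (u : ℂ) ≠ 0 := by exact_mod_cast (ne_of_gt (mem_Ioi.1 hu))
    have hur : u ≠ 0 := ne_of_gt (mem_Ioi.1 hu)
    have a3 : (u : ℂ) ^ s = (u : ℂ) ^ (s - 3) * (u : ℂ) ^ 3 := by
      rw [← Complex.cpow_natCast, ← Complex.cpow_add _ _ hu0]
      congr 1; push_cast; ring
    have a2 : (u : ℂ) ^ (s - 2) = (u : ℂ) ^ (s - 3) * (u : ℂ) := by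
      nth_rewrite 3 [← Complex.cpow_one (u : ℂ)]
      rw [← Complex.cpow_add _ _ hu0]
      congr 1; ring
    have key : u ^ 3 * psi u = ph (Real.pi * u) - 1 / 4 * ph (2 * Real.pi * u)
        - Real.pi / 2 * (u * Real.sin (Real.pi * u))
        + Real.pi / 4 * (u * Real.sin (2 * Real.pi * u)) := by
      unfold psi ph
      set y := Real.pi * u / 2 with hy
      have e1 : Real.pi * u = 2 * y := by rw [hy]; ring
      have e2 : 2 * Real.pi * u = 2 * (2 * y) := by rw [hy]; ring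
      rw [e1, e2, Real.cos_two_mul (2 * y), Real.sin_two_mul (2 * y), Real.cos_two_mul y,
        Real.sin_two_mul y]
      have hs := Real.sin_sq_add_cos_sq y
      have hs2 : Real.sin y ^ 2 = 1 - Real.cos y ^ 2 := by linarith
      have hs3 : Real.sin y ^ 3 = Real.sin y * (1 - Real.cos y ^ 2) := by
        rw [← hs2]; ring
      have hs4 : Real.sin y ^ 4 = (1 - Real.cos y ^ 2) ^ 2 := by
        rw [← hs2]; ring
      rw [hs3, hs4]
      field_simp
      ring
    have keyC : (u : ℂ) ^ 3 * (psi u : ℂ) = (ph (Real.pi * u) : ℂ)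
        - 1 / 4 * (ph (2 * Real.pi * u) : ℂ)
        - Real.pi / 2 * (u * (Real.sin (Real.pi * u) : ℂ))
        + Real.pi / 4 * (u * (Real.sin (2 * Real.pi * u) : ℂ)) := by
      have := congrArg (fun x : ℝ => (x : ℂ)) key
      push_cast at this ⊢
      exact this
    rw [a3, a2, mul_assoc, keyC]
    ring
  have hsplit : Psi s = I (s - 3) (fun u => ph (Real.pi * u)) -
      (1 / 4) * I (s - 3) (fun u => ph (2 * Real.pi * u)) -
      (Real.pi / 2) * I (s - 2) (fun u => Real.sin (Real.pi * u)) +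
      (Real.pi / 4) * I (s - 2) (fun u => Real.sin (2 * Real.pi * u)) := by
    unfold Psi I
    rw [setIntegral_congr_fun measurableSet_Ioi e]
    have k1 := j1 Real.pi hpi
    have k2 := (j1 (2 * Real.pi) (by positivity)).const_mul (1 / 4 : ℂ)
    have k3 := (j2 Real.pi hpi).const_mul (Real.pi / 2 : ℂ)
    have k4 := (j2 (2 * Real.pi) (by positivity)).const_mul (Real.pi / 4 : ℂ)
    refine (int4 k1 k2 k3 k4).trans ?_
    rw [integral_const_mul, integral_const_mul, integral_const_mul]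
  rw [hsplit, I_scale (s - 3) ph hpi, I_scale (s - 3) ph (by positivity : 0 < 2 * Real.pi),
    I_scale (s - 2) Real.sin hpi, I_scale (s - 2) Real.sin (by positivity : 0 < 2 * Real.pi),
    sin_eq h0 h1]
  have hpiC : (Real.pi : ℂ) ≠ 0 := by exact_mod_cast hpi.ne'
  have b1 : -(s - 3) - 1 = 2 - s := by ring
  have b2 : -(s - 2) - 1 = 1 - s := by ring
  have b3 : ((2 * Real.pi : ℝ) : ℂ) ^ (2 - s) = (2:ℂ) ^ (2 - s) * (Real.pi : ℂ) ^ (2 - s) := by
    have := Complex.mul_cpow_ofReal_nonneg (a := 2) (b := Real.pi) (by norm_num) hpi.le (2 - s)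
    push_cast at this ⊢
    exact this
  have b4 : ((2 * Real.pi : ℝ) : ℂ) ^ (1 - s) = (2:ℂ) ^ (1 - s) * (Real.pi : ℂ) ^ (1 - s) := by
    have := Complex.mul_cpow_ofReal_nonneg (a := 2) (b := Real.pi) (by norm_num) hpi.le (1 - s)
    push_cast at this ⊢
    exact this
  have b5 : (Real.pi : ℂ) ^ (2 - s) = Real.pi * (Real.pi : ℂ) ^ (1 - s) := by
    nth_rewrite 2 [← Complex.cpow_one (Real.pi : ℂ)]
    rw [← Complex.cpow_add _ _ hpiC]
    congr 1; ring
  have b6 : (2:ℂ) ^ (2 - s) = 4 * (2:ℂ) ^ (-s) := by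
    rw [show (2:ℂ) - s = 2 + -s by ring, Complex.cpow_add _ _ two_ne_zero]
    norm_num
  have b7 : (2:ℂ) ^ (1 - s) = 2 * (2:ℂ) ^ (-s) := by
    rw [show (1:ℂ) - s = 1 + -s by ring, Complex.cpow_add _ _ two_ne_zero, Complex.cpow_one]
  rw [b1, b2, b3, b4, b5, b6, b7]
  ring

/-! ### pairing with the Gaussian -/

theorem gauss_cos (u : ℝ) :
    ∫ x : ℝ, ((Real.exp (-x ^ 2) : ℝ) : ℂ) * ((ph (x * u) : ℝ) : ℂ) =
      (Real.sqrt Real.pi : ℂ) * ((1 - Real.exp (-u ^ 2 / 4) : ℝ) : ℂ) := by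
  have hb : (0:ℝ) < (1 : ℂ).re := by simp
  have f1 := fourierIntegral_gaussian hb (u : ℂ)
  have f2 := fourierIntegral_gaussian hb (-u : ℂ)
  have f3 := integral_gaussian_complex hb
  have hexp : ∀ x : ℝ, ((Real.exp (-x ^ 2) : ℝ) : ℂ) = Complex.exp (-1 * (x : ℂ) ^ 2) := by
    intro x; push_cast; ring_nf
  have hint : ∀ t : ℝ, Integrable fun x : ℝ =>
      Complex.exp (Complex.I * (t : ℂ) * x) * Complex.exp (-1 * (x : ℂ) ^ 2) := by
    intro t
    have hg : Integrable fun x : ℝ => Complex.exp (-1 * (x : ℂ) ^ 2) :=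
      integrable_cexp_neg_mul_sq hb
    refine hg.norm.mono' (by fun_prop) (Eventually.of_forall fun x => ?_)
    rw [norm_mul]
    have : ‖Complex.exp (Complex.I * (t : ℂ) * x)‖ = 1 := by
      have e : Complex.I * (t : ℂ) * x = ((t * x : ℝ) : ℂ) * Complex.I := by push_cast; ring
      rw [e, Complex.norm_exp_ofReal_mul_I]
    rw [this, one_mul]
  have hg : Integrable fun x : ℝ => Complex.exp (-1 * (x : ℂ) ^ 2) :=
    integrable_cexp_neg_mul_sq hb
  have e : ∀ x : ℝ, ((Real.exp (-x ^ 2) : ℝ) : ℂ) * ((ph (x * u) : ℝ) : ℂ) =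
      Complex.exp (-1 * (x : ℂ) ^ 2) -
      ((1 / 2) * (Complex.exp (Complex.I * (u : ℂ) * x) * Complex.exp (-1 * (x : ℂ) ^ 2)) +
       (1 / 2) * (Complex.exp (Complex.I * ((-u : ℝ) : ℂ) * x) *
        Complex.exp (-1 * (x : ℂ) ^ 2))) := by
    intro x
    rw [hexp]
    unfold ph
    push_cast
    rw [Complex.cos, show (x : ℂ) * u * Complex.I = Complex.I * u * x by ring,
      show -((x : ℂ) * u) * Complex.I = Complex.I * -u * x by ring]
    ring
  simp_rw [e]
  have i1 := (hint u).const_mul (1 / 2 : ℂ)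
  have i2 := (hint (-u)).const_mul (1 / 2 : ℂ)
  refine (int3 hg i1 i2).trans ?_
  rw [integral_const_mul, integral_const_mul]
  have f2' : ∫ x : ℝ, Complex.exp (Complex.I * ((-u : ℝ) : ℂ) * x) *
      Complex.exp (-1 * (x : ℂ) ^ 2) = (Real.pi / 1) ^ (1 / 2 : ℂ) *
        Complex.exp (-(-u : ℂ) ^ 2 / (4 * 1)) := by
    rw [← f2]; push_cast; rfl
  rw [f1, f2', f3]
  have hs : ((Real.pi : ℂ) / 1) ^ (1 / 2 : ℂ) = (Real.sqrt Real.pi : ℂ) := by
    rw [div_one, Real.sqrt_eq_rpow, Complex.ofReal_cpow Real.pi_pos.le]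
    push_cast
    rfl
  rw [hs]
  push_cast
  have : -(-(u:ℂ)) ^ 2 / (4 * 1) = -(u:ℂ) ^ 2 / 4 := by ring
  have h2 : -((u:ℂ)) ^ 2 / (4 * 1) = -(u:ℂ) ^ 2 / 4 := by ring
  rw [this, h2]
  ring

/-- `1 - exp (-u²/4)` -/
def E (u : ℝ) : ℝ := 1 - Real.exp (-u ^ 2 / 4)
/-- its derivative -/
def E' (u : ℝ) : ℝ := u / 2 * Real.exp (-u ^ 2 / 4)

theorem E_eq {s : ℂ} (h0 : 0 < s.re) (h1 : s.re < 1) :
    I (s - 2) E' = (2 - s) * I (s - 3) E := by
  have hre : (s - 2).re = s.re - 2 := by simp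
  have hexp1 : ∀ u : ℝ, Real.exp (-u ^ 2 / 4) ≤ 1 := fun u => by
    rw [Real.exp_le_one_iff]; nlinarith [sq_nonneg u]
  have hexp2 : ∀ u : ℝ, 1 - u ^ 2 / 4 ≤ Real.exp (-u ^ 2 / 4) := fun u => by
    have := Real.add_one_le_exp (-u ^ 2 / 4); linarith
  have hE0 : ∀ u, 0 ≤ E u := fun u => by unfold E; linarith [hexp1 u]
  have h := byparts (a := s - 2) (C := 1) (g := E) (g' := E') (by unfold E; fun_prop)
    (by unfold E'; fun_prop) (fun u _ => by
      have e1 : HasDerivAt (fun u : ℝ => -u ^ 2 / 4) (-(2 * u) / 4) u := by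
        have := ((hasDerivAt_pow 2 u).neg).div_const 4
        simpa using this
      have e2 : HasDerivAt (fun u : ℝ => 1 - Real.exp (-u ^ 2 / 4))
        (-(Real.exp (-u ^ 2 / 4) * (-(2 * u) / 4))) u := (e1.exp).const_sub 1
      exact e2.congr_deriv (by unfold E'; ring))
    (fun u _ => by
      rw [abs_of_nonneg (hE0 u)]; unfold E; linarith [Real.exp_pos (-u ^ 2 / 4)])
    (fun u _ => by
      rw [abs_of_nonneg (hE0 u), Real.rpow_two]; unfold E
      nlinarith [hexp2 u, sq_nonneg u])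
    (fun u hu => by
      have hpos : 0 ≤ E' u := by unfold E'; positivity
      rw [abs_of_nonneg hpos]
      unfold E'
      have h3 := Real.add_one_le_exp (u ^ 2 / 4)
      have h4 : Real.exp (u ^ 2 / 4) * Real.exp (-u ^ 2 / 4) = 1 := by
        rw [← Real.exp_add]; ring_nf; exact Real.exp_zero
      have h5 : u / 2 ≤ Real.exp (u ^ 2 / 4) := by nlinarith [sq_nonneg (u / 2 - 1)]
      calc u / 2 * Real.exp (-u ^ 2 / 4) ≤ Real.exp (u ^ 2 / 4) * Real.exp (-u ^ 2 / 4) :=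
          mul_le_mul_of_nonneg_right h5 (Real.exp_pos _).le
        _ = 1 := h4)
    (fun u hu => by
      have hpos : 0 ≤ E' u := by unfold E'; positivity
      rw [abs_of_nonneg hpos, Real.rpow_one]
      unfold E'
      nlinarith [hexp1 u, Real.exp_pos (-u ^ 2 / 4)])
    (by rw [hre]; linarith) (by rw [hre]; linarith)
  rw [h, show s - 2 - 1 = s - 3 by ring]
  ring

theorem E'_ne {s : ℂ} (h0 : 0 < s.re) : I (s - 2) E' ≠ 0 := by
  have e1 : I (s - 2) E' = (1 / 2) *
      mellin (fun t : ℝ => Complex.exp (-((1 / 4 : ℝ) * ((t ^ (2:ℝ) : ℝ) : ℂ)))) s := by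
    unfold I mellin
    rw [← integral_const_mul]
    refine setIntegral_congr_fun measurableSet_Ioi fun u hu => ?_
    have hu0 : (u : ℂ) ≠ 0 := by exact_mod_cast (ne_of_gt (mem_Ioi.1 hu))
    simp only [smul_eq_mul, E', Real.rpow_two]
    have a2 : (u : ℂ) ^ (s - 1) = (u : ℂ) ^ (s - 2) * (u : ℂ) := by
      nth_rewrite 3 [← Complex.cpow_one (u : ℂ)]
      rw [← Complex.cpow_add _ _ hu0]
      congr 1; ring
    rw [a2]
    push_cast
    have : -(u:ℂ) ^ 2 / 4 = -(1 / 4 * (u:ℂ) ^ 2) := by ring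
    rw [this]
    ring
  have e2 := mellin_comp_rpow (fun t : ℝ => Complex.exp (-((1 / 4 : ℝ) * (t : ℂ)))) s 2
  have hre : 0 < (s / 2).re := by
    have : (s / 2).re = s.re / 2 := by simp
    rw [this]; positivity
  have e3 := Complex.integral_cpow_mul_exp_neg_mul_Ioi (a := s / 2) (r := 1 / 4) hre (by norm_num)
  have e4 : mellin (fun t : ℝ => Complex.exp (-((1 / 4 : ℝ) * (t : ℂ)))) (s / ((2:ℝ) : ℂ)) =
      (1 / ((1 / 4 : ℝ) : ℂ)) ^ (s / 2) * Complex.Gamma (s / 2) := by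
    rw [← e3]
    unfold mellin
    simp only [smul_eq_mul]
    push_cast
    rfl
  rw [e1, e2, e4]
  have hG := Complex.Gamma_ne_zero_of_re_pos hre
  have hc : (1 / ((1 / 4 : ℝ) : ℂ)) ^ (s / 2) ≠ 0 := by
    rw [Complex.cpow_def_of_ne_zero (by norm_num)]
    exact Complex.exp_ne_zero _
  have h2 : (|(2:ℝ)|⁻¹ : ℝ) ≠ 0 := by norm_num
  exact mul_ne_zero (by norm_num) (smul_ne_zero h2 (mul_ne_zero hc hG))

theorem ph_ne {s : ℂ} (h0 : 0 < s.re) (h1 : s.re < 1) : I (s - 3) ph ≠ 0 := by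
  intro hM
  have hre3 : (s - 3).re = s.re - 3 := by simp
  -- the dominating function
  have d1 : Integrable (fun x : ℝ => 2 * (1 + x ^ 2) * Real.exp (-x ^ 2)) := by
    have a1 := integrable_exp_neg_mul_sq (b := 1) one_pos
    have a2 := integrable_rpow_mul_exp_neg_mul_sq (b := 1) one_pos (s := 2) (by norm_num)
    have a3 := (a1.add a2).const_mul 2
    refine a3.congr (Eventually.of_forall fun x => ?_)
    simp only [Pi.add_apply, Real.rpow_two]
    rw [show -1 * x ^ 2 = -x ^ 2 by ring]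
    ring
  have d2 : IntegrableOn (fun u : ℝ => (u : ℂ) ^ (s - 3) * ((min 1 (u ^ 2) : ℝ) : ℂ)) (Ioi 0) := by
    refine int_pow (k := 2) (C := 1) (g := fun u => min 1 (u ^ 2)) (by fun_prop) ?_ ?_
      (by rw [hre3]; linarith) (by rw [hre3]; linarith)
    · intro u _
      rw [abs_of_nonneg (by positivity)]
      exact min_le_left _ _
    · intro u _
      rw [abs_of_nonneg (by positivity), Real.rpow_two, one_mul]
      exact min_le_right _ _
  have d3 := d1.mul_prod d2.norm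
  have hswap := integral_integral_swap (μ := (volume : Measure ℝ))
    (ν := (volume : Measure ℝ).restrict (Ioi 0))
    (f := fun x u => ((Real.exp (-x ^ 2) : ℝ) : ℂ) *
      ((u : ℂ) ^ (s - 3) * ((ph (x * u) : ℝ) : ℂ))) (by
      refine d3.mono' ?_ ?_
      · apply Measurable.aestronglyMeasurable
        have m1 : Measurable fun z : ℝ × ℝ => ((Real.exp (-z.1 ^ 2) : ℝ) : ℂ) := by fun_prop
        have m2 : Measurable fun z : ℝ × ℝ => ((z.2 : ℝ) : ℂ) ^ (s - 3) :=
          (Complex.measurable_ofReal.comp measurable_snd).pow_const _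
        have m3 : Measurable fun z : ℝ × ℝ => ((ph (z.1 * z.2) : ℝ) : ℂ) :=
          Complex.measurable_ofReal.comp (ph_meas.comp (measurable_fst.mul measurable_snd))
        exact m1.mul (m2.mul m3)
      · refine Eventually.of_forall fun z => ?_
        obtain ⟨x, u⟩ := z
        simp only [Function.uncurry_apply_pair, norm_mul, Complex.norm_real, Real.norm_eq_abs]
        rw [abs_of_pos (Real.exp_pos _), abs_of_nonneg (ph_nonneg _),
          abs_of_nonneg (show (0:ℝ) ≤ min 1 (u ^ 2) by positivity)]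
        have hb : ph (x * u) ≤ 2 * (1 + x ^ 2) * min 1 (u ^ 2) := by
          rcases le_total 1 (u ^ 2) with h | h
          · rw [min_eq_left h]
            nlinarith [ph_le (x * u), sq_nonneg x]
          · rw [min_eq_right h]
            have := ph_le_sq (x * u)
            nlinarith [sq_nonneg x, sq_nonneg u, mul_nonneg (sq_nonneg x) (sq_nonneg u)]
        have hn : 0 ≤ Real.exp (-x ^ 2) * ‖(u : ℂ) ^ (s - 3)‖ := by positivity
        calc Real.exp (-x ^ 2) * (‖(u : ℂ) ^ (s - 3)‖ * ph (x * u))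
            = (Real.exp (-x ^ 2) * ‖(u : ℂ) ^ (s - 3)‖) * ph (x * u) := by ring
          _ ≤ (Real.exp (-x ^ 2) * ‖(u : ℂ) ^ (s - 3)‖) * (2 * (1 + x ^ 2) * min 1 (u ^ 2)) :=
              mul_le_mul_of_nonneg_left hb hn
          _ = _ := by ring)
  have hL : ∀ x : ℝ, ∫ u in Ioi (0:ℝ), ((Real.exp (-x ^ 2) : ℝ) : ℂ) *
      ((u : ℂ) ^ (s - 3) * ((ph (x * u) : ℝ) : ℂ)) = 0 := by
    intro x
    rw [integral_const_mul]
    have : ∫ u in Ioi (0:ℝ), (u : ℂ) ^ (s - 3) * ((ph (x * u) : ℝ) : ℂ) = 0 := by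
      rcases lt_trichotomy x 0 with h | h | h
      · have e := I_scale (s - 3) ph (x := -x) (by linarith)
        rw [hM, mul_zero] at e
        unfold I at e
        rw [← e]
        refine setIntegral_congr_fun measurableSet_Ioi fun u _ => ?_
        have : ph (x * u) = ph (-x * u) := by
          unfold ph; rw [show -x * u = -(x * u) by ring, Real.cos_neg]
        simp only [this]
      · subst h
        simp [ph]
      · have e := I_scale (s - 3) ph h
        rw [hM, mul_zero] at e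
        exact e
    rw [this, mul_zero]
  have hR : ∀ u : ℝ, ∫ x : ℝ, ((Real.exp (-x ^ 2) : ℝ) : ℂ) *
      ((u : ℂ) ^ (s - 3) * ((ph (x * u) : ℝ) : ℂ)) =
      (Real.sqrt Real.pi : ℂ) * ((u : ℂ) ^ (s - 3) * ((E u : ℝ) : ℂ)) := by
    intro u
    have := gauss_cos u
    have e : ∀ x : ℝ, ((Real.exp (-x ^ 2) : ℝ) : ℂ) *
      ((u : ℂ) ^ (s - 3) * ((ph (x * u) : ℝ) : ℂ)) = (u : ℂ) ^ (s - 3) *
        (((Real.exp (-x ^ 2) : ℝ) : ℂ) * ((ph (x * u) : ℝ) : ℂ)) := fun x => by ring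
    simp_rw [e]
    rw [integral_const_mul, this]
    unfold E
    ring
  simp_rw [hL, hR] at hswap
  rw [integral_zero, integral_const_mul] at hswap
  have hpi : (Real.sqrt Real.pi : ℂ) ≠ 0 := by
    have := Real.sqrt_pos.2 Real.pi_pos
    exact_mod_cast this.ne'
  have hE : I (s - 3) E = 0 := by
    unfold I
    exact (mul_eq_zero.1 hswap.symm).resolve_left hpi
  have := E_eq h0 h1
  rw [hE, mul_zero] at this
  exact E'_ne h0 this

/-- A2 -/
theorem psiNe : Pool.Agent.H295R2.Beu.PsiNe := by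
  intro s h0 h1
  rw [Psi_eq h0 h1]
  have a1 : (Real.pi : ℂ) ^ (2 - s) ≠ 0 := by
    rw [Complex.cpow_def_of_ne_zero (by exact_mod_cast Real.pi_pos.ne')]
    exact Complex.exp_ne_zero _
  have a2 : (1 : ℂ) - (2:ℂ) ^ (-s) ≠ 0 := by
    intro h
    have h2 : (2:ℂ) ^ (-s) = 1 := by linear_combination -h
    have h3 : ‖(2:ℂ) ^ (-s)‖ = (2:ℝ) ^ (-s.re) := by
      have := Complex.norm_cpow_eq_rpow_re_of_pos (x := 2) (by norm_num) (-s)
      simpa using this
    rw [h2, norm_one] at h3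
    have h4 : (2:ℝ) ^ (-s.re) < 1 := Real.rpow_lt_one_of_one_lt_of_neg (by norm_num) (by linarith)
    linarith
  have a3 : s / 2 ≠ 0 := by
    intro h
    have : s = 0 := by linear_combination 2 * h
    rw [this, Complex.zero_re] at h0
    exact lt_irrefl _ h0
  exact mul_ne_zero (mul_ne_zero (mul_ne_zero a1 a2) a3) (ph_ne h0 h1)

end

end Pool.Agent.H143R2.PsiNe
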