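import Pool.Agent.H295R2.SI.Defs
import Pool.Agent.H370R2.Fin1

/-!
The trace inequality for the zeros and a general window (adapted from `H370R2.Gram` and
`H370R2.Fin1`).
-/

open Complex Filter Topology Set MeasureTheory
open scoped BigOperators ComplexConjugate

namespace H143TG

open H370 H295SI ProbabilityTheory

theorem kapG_even {g : ℝ → ℝ} (hg : Win g) (z : ℂ) : kapG g (-z) = kapG g z := by
  unfold kapG
  have h := intervalIntegral.integral_comp_neg (a := (-1 / 2 : ℝ)) (b := 1 / 2)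
    (fun x : ℝ => (g x : ℂ) * cexp (I * z * x))
  have e1 : (-(1 / 2) : ℝ) = -1 / 2 := by norm_num
  have e2 : (-(-1 / 2) : ℝ) = 1 / 2 := by norm_num
  rw [e1, e2] at h
  rw [← h]
  apply intervalIntegral.integral_congr
  intro x _
  simp only
  rw [hg.even x]
  congr 2
  push_cast
  ring

theorem kapG_zero {g : ℝ → ℝ} (hg : Win g) : kapG g 0 = 1 := by
  unfold kapG
  have h0 : ∀ x : ℝ, (g x : ℂ) * cexp (I * 0 * x) = ((g x : ℝ) : ℂ) := by
    intro x; simp
  simp_rw [h0]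
  rw [intervalIntegral.integral_ofReal, hg.mass]
  simp

theorem phiG_even {g : ℝ → ℝ} (hg : Win g) (Λ : ℝ) (z : ℂ) : phiG g Λ (-z) = phiG g Λ z := by
  unfold phiG
  rw [mul_neg, kapG_even hg, neg_sq]

theorem phiG_zero {g : ℝ → ℝ} (hg : Win g) (Λ : ℝ) : phiG g Λ 0 = 1 := by
  unfold phiG
  rw [mul_zero, kapG_zero hg]
  simp

/-- the measure -/
noncomputable def mu2 : Measure (ℝ × ℝ) :=
  (volume.restrict (Set.Ioc (-1 / 2 : ℝ) (1 / 2))).prod (gaussianReal 0 (1 / 4))

/-- the vectors whose Gram matrix is given by `phiG` -/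
noncomputable def kf (g : ℝ → ℝ) (Λ : ℝ) (z : ℂ) (p : ℝ × ℝ) : ℂ :=
  (Real.sqrt (g p.1) : ℂ) * cexp (I * z * (Λ * p.1 + p.2))

lemma kf_cont {g : ℝ → ℝ} (hg : Win g) (Λ : ℝ) (z : ℂ) : Continuous (kf g Λ z) := by
  unfold kf
  have := hg.cont
  fun_prop

lemma kf_memLp {g : ℝ → ℝ} (hg : Win g) (Λ : ℝ) (z : ℂ) : MemLp (kf g Λ z) 2 mu2 := by
  rw [memLp_two_iff_integrable_sq_norm (kf_cont hg Λ z).aestronglyMeasurable]
  have h1 : Integrable (fun x : ℝ => (Real.sqrt (g x)) ^ 2 * Real.exp (-2 * z.im * Λ * x))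
      (volume.restrict (Set.Ioc (-1 / 2 : ℝ) (1 / 2))) := by
    have hc : Continuous (fun x : ℝ => (Real.sqrt (g x)) ^ 2 * Real.exp (-2 * z.im * Λ * x)) := by
      have := hg.cont
      fun_prop
    exact hc.integrableOn_Ioc
  have h2 : Integrable (fun x : ℝ => Real.exp ((-2 * z.im) * x)) (gaussianReal 0 (1 / 4)) :=
    integrable_exp_mul_gaussianReal _
  have h3 := h1.mul_prod h2
  refine h3.congr ?_
  refine Filter.Eventually.of_forall (fun p => ?_)
  simp only [kf]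
  rw [norm_mul, mul_pow, Complex.norm_exp, Complex.norm_real, Real.norm_eq_abs, sq_abs, mul_assoc,
    ← Real.exp_add, ← Real.exp_nat_mul]
  congr 2
  have : (I * z * (Λ * p.1 + p.2)).re = -z.im * (Λ * p.1 + p.2) := by
    simp [Complex.mul_re, Complex.mul_im]
  rw [this]
  push_cast
  ring

lemma kf_inner {g : ℝ → ℝ} (hg : Win g) (Λ : ℝ) (z w : ℂ) :
    ∫ p, (starRingEnd ℂ) (kf g Λ z p) * kf g Λ w p ∂mu2
      = phiG g Λ (w - (starRingEnd ℂ) z) := by
  set ζ := w - (starRingEnd ℂ) z with hζ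
  have h1 : ∀ᵐ p ∂mu2, (starRingEnd ℂ) (kf g Λ z p) * kf g Λ w p =
      ((Real.sqrt (g p.1) : ℂ) ^ 2 * cexp (I * (Λ * ζ) * p.1)) * cexp ((I * ζ) * p.2) := by
    refine Filter.Eventually.of_forall (fun p => ?_)
    simp only [kf, map_mul, Complex.conj_ofReal, ← Complex.exp_conj, map_add, Complex.conj_I]
    have e : cexp (-I * (starRingEnd ℂ) z * (Λ * p.1 + p.2)) * cexp (I * w * (Λ * p.1 + p.2)) =
        cexp (I * (Λ * ζ) * p.1) * cexp ((I * ζ) * p.2) := by
      rw [← Complex.exp_add, ← Complex.exp_add]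
      congr 1
      rw [hζ]
      ring
    linear_combination ((Real.sqrt (g p.1) : ℂ) ^ 2) * e
  rw [integral_congr_ae h1]
  unfold mu2
  rw [integral_prod_mul (fun x : ℝ => (Real.sqrt (g x) : ℂ) ^ 2 * cexp (I * (Λ * ζ) * x))
    (fun y : ℝ => cexp ((I * ζ) * y))]
  unfold phiG
  congr 1
  · unfold kapG
    rw [intervalIntegral.integral_of_le (by norm_num)]
    apply setIntegral_congr_fun measurableSet_Ioc
    intro x hx
    simp only
    congr 1
    have := hg.nonneg x hx.1.le hx.2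
    rw [← Complex.ofReal_pow, Real.sq_sqrt this]
  · have := complexMGF_id_gaussianReal (μ := 0) (v := 1 / 4) (I * ζ)
    unfold complexMGF at this
    simp only [id] at this
    rw [this]
    congr 1
    push_cast
    rw [mul_pow, Complex.I_sq]
    ring

theorem gramG_exists {g : ℝ → ℝ} (hg : Win g) (Λ : ℝ) :
    ∃ (E : Type) (_ : NormedAddCommGroup E) (_ : InnerProductSpace ℂ E)
    (k : ℂ → E), ∀ z w, inner ℂ (k z) (k w) = phiG g Λ (w - (starRingEnd ℂ) z) := by
  refine ⟨Lp ℂ 2 mu2, inferInstance, inferInstance, fun z => (kf_memLp hg Λ z).toLp _,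
    fun z w => ?_⟩
  rw [L2.inner_def, ← kf_inner hg]
  apply integral_congr_ae
  filter_upwards [(kf_memLp hg Λ z).coeFn_toLp, (kf_memLp hg Λ w).coeFn_toLp] with p h1 h2
  rw [h1, h2, RCLike.inner_apply, mul_comm]

section

variable {F : ℂ → ℂ} (hF : GoodL F) {U1 U2 : ℝ} (hU : 1 ≤ U1)

include hF hU in
lemma QQG_eq (g : ℝ → ℝ) (Λ : ℝ) : QQG g F Λ U1 U2 = (∑ s ∈ Zf F U1 U2, ∑ s' ∈ Zf F U1 U2,
    (mult F s : ℂ) * (mult F s' : ℂ) * (phiG g Λ (zz s - zz s')) ^ 2).re := by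
  unfold QQG
  rw [finsum_Zf hF hU]
  congr 1
  refine Finset.sum_congr rfl fun s _ => ?_
  rw [finsum_Zf hF hU]

include hF hU in
theorem trace_zerosG {g : ℝ → ℝ} (hg : Win g) (Λ : ℝ) :
    2 * (NN F U1 U2 : ℝ) - QQG g F Λ U1 U2 ≤ Ns F U1 U2 ∧
    3 * (NN F U1 U2 : ℝ) - QQG g F Λ U1 U2 ≤ 2 * Nd F U1 U2 := by
  classical
  obtain ⟨E, iE1, iE2, k, hk⟩ := gramG_exists hg Λ
  set W := Zf F U1 U2 with hW
  have hinj : Set.InjOn zz (W : Set ℂ) := fun s _ s' _ h => zz_inj h
  set Z : Finset ℂ := W.image zz with hZ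
  set m : ℂ → ℕ := fun z => mult F (1 / 2 + I * z) with hm
  have hback : ∀ s : ℂ, (1 / 2 + I * zz s) = s := by
    intro s
    have := zz_spec s
    linear_combination -this
  have hmz : ∀ s : ℂ, m (zz s) = mult F s := by
    intro s; simp only [hm]; rw [hback]
  have hWm : ∀ s ∈ W, s ∈ zset F U1 U2 := fun s hs => (mem_Zf hF hU).mp hs
  have hWpos : ∀ s ∈ W, 1 ≤ mult F s := by
    intro s hs
    have := hWm s hs
    exact Loc.mult_pos' hF (by linarith [this.2.2.1]) this.2.2.2.2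
  -- the filtered sets
  have hf1 : Z.filter (fun z => z.im = 0 ∧ m z = 1) =
      (W.filter (fun s => s.re = 1 / 2 ∧ mult F s = 1)).image zz := by
    ext z
    simp only [Finset.mem_filter, Finset.mem_image, hZ]
    constructor
    · rintro ⟨⟨s, hs, rfl⟩, h1, h2⟩
      rw [hmz] at h2
      rw [zz_im] at h1
      exact ⟨s, ⟨hs, by linarith, h2⟩, rfl⟩
    · rintro ⟨s, ⟨hs, h1, h2⟩, rfl⟩
      refine ⟨⟨s, hs, rfl⟩, ?_, ?_⟩
      · rw [zz_im, h1]; ring
      · rw [hmz, h2]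
  have hsum1 : ∀ {M : Type} [AddCommMonoid M] (f : ℂ → M),
      ∑ z ∈ Z.filter (fun z => z.im = 0 ∧ m z = 1), f z = ∑ x ∈ SF F U1 U2, f (x : ℂ) := by
    intro M _ f
    rw [hf1, Finset.sum_image (fun s _ s' _ h => zz_inj h), sum_SF]
    refine Finset.sum_congr rfl fun s hs => ?_
    rw [zz_simple (Finset.mem_filter.mp hs).2.1]
  have hcard1 : ((Z.filter (fun z => z.im = 0 ∧ m z = 1)).card : ℝ) = Ns F U1 U2 := by
    rw [Ns_card hF hU, Finset.card_eq_sum_ones, hsum1, ← Finset.card_eq_sum_ones]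
  have hsumZ : ∀ {M : Type} [AddCommMonoid M] (f : ℂ → M),
      ∑ z ∈ Z, f z = ∑ s ∈ W, f (zz s) := by
    intro M _ f
    rw [hZ, Finset.sum_image (fun s _ s' _ h => zz_inj h)]
  have hN : ∑ z ∈ Z, (m z : ℝ) = NN F U1 U2 := by
    rw [NN_eq hF hU, hsumZ]
    simp only [hmz]
    push_cast; rfl
  have hZc : ∀ z ∈ Z, conj z ∈ Z := by
    intro z hz
    rw [hZ, Finset.mem_image] at hz
    obtain ⟨s, hs, rfl⟩ := hz
    rw [← zz_refl]
    exact Finset.mem_image_of_mem _ ((mem_Zf hF hU).mpr (zset_refl hF hU (hWm s hs)))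
  have hmp : ∀ z ∈ Z, 1 ≤ m z := by
    intro z hz
    rw [hZ, Finset.mem_image] at hz
    obtain ⟨s, hs, rfl⟩ := hz
    rw [hmz]
    exact hWpos s hs
  have hT := trace_ineq (phiG g Λ) k hk (phiG_even hg Λ) (phiG_zero hg Λ) Z hZc m hmp ?_
    (fun _ _ => 0) ?_
  · -- main
    have h00 : (2 * ∑ x ∈ Z.filter (fun z => z.im = 0 ∧ m z = 1),
            ∑ y ∈ Z.filter (fun z => z.im = 0 ∧ m z = 1),
              (0 : ℝ) * ((phiG g Λ (x - y)).re - if x = y then 1 else 0)
          - ∑ x ∈ Z.filter (fun z => z.im = 0 ∧ m z = 1),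
            ∑ y ∈ Z.filter (fun z => z.im = 0 ∧ m z = 1), (0 : ℝ) ^ 2) = 0 := by
      simp
    rw [h00, add_zero, hcard1, hN] at hT
    have hB : (Z.filter (fun z => z.im < 0)).card = (Z.filter (fun z => 0 < z.im)).card := by
      refine Finset.card_bij' (fun z _ => conj z) (fun z _ => conj z) ?_ ?_ ?_ ?_
      · intro z hz
        rw [Finset.mem_filter] at hz ⊢
        exact ⟨hZc z hz.1, by rw [Complex.conj_im]; linarith [hz.2]⟩
      · intro z hz
        rw [Finset.mem_filter] at hz ⊢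
        exact ⟨hZc z hz.1, by rw [Complex.conj_im]; linarith [hz.2]⟩
      · intro z _; simp
      · intro z _; simp
    set A : ℝ := ((Z.filter (fun z => z.im = 0 ∧ 2 ≤ m z)).card : ℝ) with hA
    set B : ℝ := ((Z.filter (fun z => 0 < z.im)).card : ℝ) with hBdef
    have hb1 : ∑ z ∈ Z, (if z.im = 0 ∧ m z = 1 then (1 : ℝ) else 0) = Ns F U1 U2 := by
      rw [Finset.sum_boole, hcard1]
    have hb2 : ∑ z ∈ Z, (if z.im = 0 ∧ 2 ≤ m z then (1 : ℝ) else 0) = A := by
      rw [Finset.sum_boole]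
    have hb3 : ∑ z ∈ Z, (if 0 < z.im then (1 : ℝ) else 0) = B := by
      rw [Finset.sum_boole]
    have hb4 : ∑ z ∈ Z, (if z.im < 0 then (1 : ℝ) else 0) = B := by
      rw [Finset.sum_boole, hB]
    have hNN : (Ns F U1 U2 : ℝ) + 2 * A + 2 * B ≤ NN F U1 U2 := by
      have : ∑ z ∈ Z, ((if z.im = 0 ∧ m z = 1 then (1 : ℝ) else 0) +
          2 * (if z.im = 0 ∧ 2 ≤ m z then (1 : ℝ) else 0) + (if 0 < z.im then (1 : ℝ) else 0) +
          (if z.im < 0 then (1 : ℝ) else 0)) ≤ ∑ z ∈ Z, (m z : ℝ) := by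
        refine Finset.sum_le_sum fun z hz => ?_
        have h1 : (1 : ℝ) ≤ m z := by exact_mod_cast hmp z hz
        rcases lt_trichotomy z.im 0 with h | h | h
        · have h' : ¬ (0 < z.im) := by linarith
          simp [h, h.ne, h', h1]
        · by_cases h2 : m z = 1
          · simp [h, h2]
          · have h3 : 2 ≤ m z := by have := hmp z hz; omega
            have h4 : (2 : ℝ) ≤ m z := by exact_mod_cast h3
            simp [h, h2, h3, h4]
        · have h' : ¬ (z.im < 0) := by linarith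
          simp [h, h.ne', h', h1]
      rw [Finset.sum_add_distrib, Finset.sum_add_distrib, Finset.sum_add_distrib,
        ← Finset.mul_sum, hb1, hb2, hb3, hb4, hN] at this
      linarith
    have hND : (Ns F U1 U2 : ℝ) + A + 2 * B ≤ Nd F U1 U2 := by
      have hcz : (Nd F U1 U2 : ℝ) = ∑ z ∈ Z, (1 : ℝ) := by
        rw [Nd_card hF hU, hsumZ, ← hW]; simp
      rw [hcz, ← hb1, ← hb2]
      have e : 2 * B = B + B := by ring
      rw [e]
      nth_rewrite 1 [← hb3]
      rw [← hb4, ← Finset.sum_add_distrib, ← Finset.sum_add_distrib, ← Finset.sum_add_distrib]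
      refine Finset.sum_le_sum fun z hz => ?_
      rcases lt_trichotomy z.im 0 with h | h | h
      · have h' : ¬ (0 < z.im) := by linarith
        simp [h, h.ne, h']
      · by_cases h2 : m z = 1
        · simp [h, h2]
        · have h3 : 2 ≤ m z := by have := hmp z hz; omega
          simp [h, h2, h3]
      · have h' : ¬ (z.im < 0) := by linarith
        simp [h, h.ne', h']
    have hQ : (∑ z ∈ Z, ∑ w ∈ Z, (m z : ℂ) * (m w : ℂ) * (phiG g Λ (z - w)) ^ 2).re
        = QQG g F Λ U1 U2 := by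
      rw [QQG_eq hF hU, hsumZ]
      simp only [hsumZ, hmz, ← hW]
    rw [hQ] at hT
    have hBnn : 0 ≤ B := Nat.cast_nonneg _
    constructor
    · linarith
    · linarith
  · intro z hz
    rw [hZ, Finset.mem_image] at hz
    obtain ⟨s, hs, rfl⟩ := hz
    have := hWm s hs
    rw [← zz_refl, hmz, hmz, mult_refl hF this.1 this.2.1 (by linarith [this.2.2.1])]
  · intro v
    simp only [zero_mul, Finset.sum_const_zero]
    exact Finset.sum_nonneg fun x _ => by positivity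

end

theorem traceG : TraceG := by
  intro g hg F hF U1 U2 hU Λ
  exact trace_zerosG hF hU hg Λ

end H143TG
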